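import Mathlib

/-!
# Fibres of Bayesian networks with chordal skeleton are connected by quadratic moves
-/

set_option autoImplicit false
set_option linter.unusedSectionVars false

namespace Q49.BN

open Finset

variable {V : Type} [Fintype V] [DecidableEq V] {κ : V → ℕ}

/-- the joint states -/
abbrev Out (κ : V → ℕ) : Type := (i : V) → Fin (κ i)

/-- `r` and `r'` agree on `Z` -/
def Agree (Z : Finset V) (r r' : Out κ) : Prop := ∀ i ∈ Z, r i = r' i

theorem Agree.symm {Z : Finset V} {r r' : Out κ} (h : Agree Z r r') : Agree Z r' r :=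
  fun i hi => (h i hi).symm

theorem Agree.trans {Z : Finset V} {r r' r'' : Out κ} (h : Agree Z r r') (h' : Agree Z r' r'') :
    Agree Z r r'' := fun i hi => (h i hi).trans (h' i hi)

theorem Agree.mono {Z Z' : Finset V} (hZ : Z' ⊆ Z) {r r' : Out κ} (h : Agree Z r r') :
    Agree Z' r r' := fun i hi => h i (hZ hi)

open Classical in
/-- the number of rows with property `P` -/
noncomputable def cnt {ι : Type} [Fintype ι] (f : ι → Out κ) (P : Out κ → Prop) : ℕ :=
  (univ.filter fun k => P (f k)).card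

section cnt

variable {ι : Type} [Fintype ι]

theorem cnt_congr (f : ι → Out κ) {P P' : Out κ → Prop} (h : ∀ r, P r ↔ P' r) :
    cnt f P = cnt f P' := by
  unfold cnt
  congr 1
  ext k
  simp only [mem_filter, mem_univ, true_and]
  exact h _

theorem cnt_inv (o : Out κ) (f g : ι → Out κ) (Z : Finset V) (P : Out κ → Prop)
    (hP : ∀ r r', Agree Z r r' → (P r ↔ P r'))
    (h : ∀ c, P c → cnt f (fun r => Agree Z r c) = cnt g (fun r => Agree Z r c)) :
    cnt f P = cnt g P := by
  classical
  let nf : Out κ → Out κ := fun r i => if i ∈ Z then r i else o i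
  have hnf : ∀ r r', nf r = nf r' ↔ Agree Z r r' := by
    intro r r'
    constructor
    · intro h i hi
      have := congrFun h i
      simp only [nf, if_pos hi] at this
      exact this
    · intro h
      funext i
      simp only [nf]
      split_ifs with hi
      · exact h i hi
      · rfl
  have hnf2 : ∀ r, Agree Z (nf r) r := by
    intro r i hi
    simp only [nf, if_pos hi]
  have hnf3 : ∀ r, nf (nf r) = nf r := fun r => (hnf _ _).2 (hnf2 r)
  have key : ∀ f : ι → Out κ, cnt f P =
      ∑ c ∈ univ.filter (fun c => P c ∧ nf c = c), cnt f (fun r => Agree Z r c) := by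
    intro f
    unfold cnt
    rw [card_eq_sum_card_fiberwise (f := fun k => nf (f k))
      (t := univ.filter (fun c => P c ∧ nf c = c))]
    · refine sum_congr rfl fun c hc => ?_
      rw [mem_filter] at hc
      congr 1
      ext k
      simp only [mem_filter, mem_univ, true_and]
      constructor
      · rintro ⟨-, h2⟩
        rw [← hc.2.2] at h2
        exact (hnf _ _).1 h2
      · intro h2
        refine ⟨(hP _ _ h2).2 hc.2.1, ?_⟩
        rw [← hc.2.2]
        exact (hnf _ _).2 h2
    · intro k hk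
      simp only [coe_filter, mem_univ, true_and, Set.mem_ofPred_eq] at hk ⊢
      exact ⟨(hP _ _ (hnf2 _)).2 hk, hnf3 _⟩
  rw [key f, key g]
  refine sum_congr rfl fun c hc => h c (mem_filter.1 hc).2.1

/-- the indicator of `P` -/
noncomputable def ind (P : Out κ → Prop) (r : Out κ) : ℕ := by classical exact if P r then 1 else 0

theorem ind_congr {P : Out κ → Prop} {r r' : Out κ} (h : P r ↔ P r') : ind P r = ind P r' := by
  classical
  unfold ind
  by_cases h1 : P r
  · rw [if_pos h1, if_pos (h.1 h1)]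
  · rw [if_neg h1, if_neg (fun h2 => h1 (h.2 h2))]

theorem ind_pos {P : Out κ → Prop} {r : Out κ} (h : P r) : ind P r = 1 := by
  classical
  unfold ind
  rw [if_pos h]

theorem ind_neg {P : Out κ → Prop} {r : Out κ} (h : ¬ P r) : ind P r = 0 := by
  classical
  unfold ind
  rw [if_neg h]

theorem ind_ne {P : Out κ → Prop} {r : Out κ} (h : ind P r ≠ 0) : P r := by
  by_contra h1
  exact h (ind_neg h1)

theorem cnt_eq_sum (f : ι → Out κ) (P : Out κ → Prop) : cnt f P = ∑ k, ind P (f k) := by
  classical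
  unfold cnt ind
  rw [card_filter]

theorem cnt_split (f : ι → Out κ) (P Q : Out κ → Prop) :
    cnt f P = cnt f (fun r => P r ∧ Q r) + cnt f (fun r => P r ∧ ¬ Q r) := by
  rw [cnt_eq_sum, cnt_eq_sum, cnt_eq_sum, ← sum_add_distrib]
  refine sum_congr rfl fun k _ => ?_
  by_cases hP : P (f k)
  · by_cases hQ : Q (f k)
    · rw [ind_pos hP, ind_pos (P := fun r => P r ∧ Q r) ⟨hP, hQ⟩,
        ind_neg (P := fun r => P r ∧ ¬ Q r) (fun h => h.2 hQ)]
    · rw [ind_pos hP, ind_neg (P := fun r => P r ∧ Q r) (fun h => hQ h.2),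
        ind_pos (P := fun r => P r ∧ ¬ Q r) ⟨hP, hQ⟩]
  · rw [ind_neg hP, ind_neg (P := fun r => P r ∧ Q r) (fun h => hP h.1),
      ind_neg (P := fun r => P r ∧ ¬ Q r) (fun h => hP h.1)]

/-- the pair form of equality of counts -/
theorem cnt_pair [DecidableEq ι] {f g : ι → Out κ} {k l : ι} (hkl : k ≠ l)
    (hoff : ∀ m, m ≠ k → m ≠ l → f m = g m) (P : Out κ → Prop) :
    cnt f P = cnt g P ↔ ind P (f k) + ind P (f l) = ind P (g k) + ind P (g l) := by
  classical
  rw [cnt_eq_sum, cnt_eq_sum]
  have h : ∀ f : ι → Out κ, ∑ m, ind P (f m) = (ind P (f k) + ind P (f l)) +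
      ∑ m ∈ (univ.erase k).erase l, ind P (f m) := by
    intro f
    rw [← add_sum_erase univ _ (mem_univ k), ← add_sum_erase (univ.erase k) _
      (mem_erase.2 ⟨Ne.symm hkl, mem_univ l⟩), add_assoc]
  rw [h f, h g]
  have h2 : ∑ m ∈ (univ.erase k).erase l, ind P (f m) =
      ∑ m ∈ (univ.erase k).erase l, ind P (g m) := by
    refine sum_congr rfl fun m hm => ?_
    rw [mem_erase, mem_erase] at hm
    rw [hoff m hm.2.1 hm.1]
  rw [h2]
  exact Nat.add_right_cancel_iff

end cnt

/-- The combinatorial data: parents, sinks, and a distinguished state of every vertex. -/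
structure Model (V : Type) [Fintype V] [DecidableEq V] (κ : V → ℕ) where
  o : Out κ
  Pa : V → Finset V
  sink : V → Prop
  not_mem : ∀ s, sink s → ∀ j, s ∉ Pa j
  irrefl : ∀ i, i ∉ Pa i

namespace Model

variable (M : Model V κ)

/-- adjacency -/
def Adj (i j : V) : Prop := i ∈ M.Pa j ∨ j ∈ M.Pa i

theorem Adj.symm {i j : V} (h : M.Adj i j) : M.Adj j i := Or.symm h

theorem not_adj_self (i : V) : ¬ M.Adj i i := by
  rintro (h | h) <;> exact M.irrefl i h

/-- the statistics of the model restricted to `W` -/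
def Fam (W : Finset V) : Set (Out κ → Prop) :=
  {P | (∃ Q : Finset V, Q ⊆ W ∧ (∀ i ∈ Q, ¬ M.sink i) ∧
      (∀ i ∈ Q, ∀ j ∈ Q, i ≠ j → M.Adj i j) ∧ ∃ c, P = fun r => Agree Q r c) ∨
    ∃ s ∈ W, M.sink s ∧ ∃ c : Out κ, c s ≠ M.o s ∧
      P = fun r => Agree (insert s (M.Pa s ∩ W)) r c}

theorem fam_clique {W Q : Finset V} (h1 : Q ⊆ W) (h2 : ∀ i ∈ Q, ¬ M.sink i)
    (h3 : ∀ i ∈ Q, ∀ j ∈ Q, i ≠ j → M.Adj i j) (c : Out κ) :
    (fun r => Agree Q r c) ∈ M.Fam W := Or.inl ⟨Q, h1, h2, h3, c, rfl⟩

theorem fam_sink {W : Finset V} {s : V} (h1 : s ∈ W) (h2 : M.sink s) {c : Out κ}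
    (h3 : c s ≠ M.o s) : (fun r => Agree (insert s (M.Pa s ∩ W)) r c) ∈ M.Fam W :=
  Or.inr ⟨s, h1, h2, c, h3, rfl⟩

/-- the statistics agree -/
def StEq {ι : Type} [Fintype ι] (W : Finset V) (f g : ι → Out κ) : Prop :=
  ∀ P ∈ M.Fam W, cnt f P = cnt g P

theorem fam_inv {W : Finset V} {P : Out κ → Prop} (hP : P ∈ M.Fam W) {r r' : Out κ}
    (h : Agree W r r') : P r ↔ P r' := by
  rcases hP with ⟨Q, hQ, -, -, c, rfl⟩ | ⟨s, hs, -, c, -, rfl⟩
  · exact ⟨fun h1 => (h.mono hQ).symm.trans h1, fun h1 => (h.mono hQ).trans h1⟩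
  · have h2 : insert s (M.Pa s ∩ W) ⊆ W := insert_subset hs inter_subset_right
    exact ⟨fun h1 => (h.mono h2).symm.trans h1, fun h1 => (h.mono h2).trans h1⟩

variable {ι : Type} [Fintype ι]

theorem stEq_of_agree {W : Finset V} {f g : ι → Out κ} (h : ∀ k, Agree W (f k) (g k)) :
    M.StEq W f g := by
  intro P hP
  rw [cnt_eq_sum, cnt_eq_sum]
  exact sum_congr rfl fun k _ => ind_congr (M.fam_inv hP (h k))

theorem stEq_mono {W : Finset V} {w : V} {f g : ι → Out κ} (h : M.StEq W f g) :
    M.StEq (W.erase w) f g := by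
  rintro P (⟨Q, hQ, h2, h3, c, rfl⟩ | ⟨s, hs, hs2, c, hc, rfl⟩)
  · exact h _ (M.fam_clique (hQ.trans (erase_subset _ _)) h2 h3 c)
  · have hsub : insert s (M.Pa s ∩ W.erase w) ⊆ insert s (M.Pa s ∩ W) :=
      insert_subset_insert _ (inter_subset_inter_left (erase_subset _ _))
    refine cnt_inv M.o f g (insert s (M.Pa s ∩ W)) _ ?_ ?_
    · intro r r' hr
      exact ⟨fun h1 => (hr.mono hsub).symm.trans h1, fun h1 => (hr.mono hsub).trans h1⟩
    · intro c' hc'
      refine h _ (M.fam_sink (mem_of_mem_erase hs) hs2 ?_)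
      rw [hc' s (mem_insert_self _ _)]
      exact hc

/-! ### simplicial vertices -/

/-- `w` is simplicial in `W` -/
def Simp (W : Finset V) (w : V) : Prop :=
  w ∈ W ∧ ∀ a ∈ W, ∀ b ∈ W, M.Adj w a → M.Adj w b → a ≠ b → M.Adj a b

open Classical in
/-- the neighbours of `w` that are not sinks -/
noncomputable def nb (W : Finset V) (w : V) : Finset V := W.filter fun a => M.Adj w a ∧ ¬ M.sink a

theorem mem_nb {W : Finset V} {w a : V} : a ∈ M.nb W w ↔ a ∈ W ∧ M.Adj w a ∧ ¬ M.sink a := by
  classical
  unfold nb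
  simp only [mem_filter]

theorem nb_sub (W : Finset V) (w : V) : M.nb W w ⊆ W.erase w := by
  intro a ha
  rw [mem_nb] at ha
  refine mem_erase.2 ⟨?_, ha.1⟩
  rintro rfl
  exact M.not_adj_self _ ha.2.1

/-- the rows `r` and `r'` have the same key -/
def Keq (W : Finset V) (w : V) (r r' : Out κ) : Prop :=
  Agree (M.nb W w) r r' ∧ ∀ s ∈ W, M.sink s → w ∈ M.Pa s →
    ((r s = M.o s ∧ r' s = M.o s) ∨ (r s ≠ M.o s ∧ Agree (insert s (M.Pa s ∩ W.erase w)) r r'))

theorem keq_symm {W : Finset V} {w : V} {r r' : Out κ} (h : M.Keq W w r r') : M.Keq W w r' r := by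
  refine ⟨h.1.symm, fun s hs h1 h2 => ?_⟩
  rcases h.2 s hs h1 h2 with h3 | h3
  · exact Or.inl ⟨h3.2, h3.1⟩
  · refine Or.inr ⟨?_, h3.2.symm⟩
    rw [← h3.2 s (mem_insert_self _ _)]
    exact h3.1

theorem keq_trans {W : Finset V} {w : V} {r r' r'' : Out κ} (h : M.Keq W w r r')
    (h' : M.Keq W w r' r'') : M.Keq W w r r'' := by
  refine ⟨h.1.trans h'.1, fun s hs h1 h2 => ?_⟩
  rcases h.2 s hs h1 h2 with h3 | h3
  · rcases h'.2 s hs h1 h2 with h4 | h4
    · exact Or.inl ⟨h3.1, h4.2⟩
    · exact absurd h3.2 h4.1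
  · rcases h'.2 s hs h1 h2 with h4 | h4
    · exfalso
      apply h3.1
      rw [h3.2 s (mem_insert_self _ _)]
      exact h4.1
    · exact Or.inr ⟨h3.1, h3.2.trans h4.2⟩

theorem keq_of_agree {W : Finset V} {w : V} {r r' : Out κ} (h : Agree (W.erase w) r r') :
    M.Keq W w r r' := by
  refine ⟨h.mono (M.nb_sub W w), fun s hs h1 h2 => ?_⟩
  have hsw : s ≠ w := by
    rintro rfl
    exact M.irrefl _ h2
  have hs' : s ∈ W.erase w := mem_erase.2 ⟨hsw, hs⟩
  by_cases h3 : r s = M.o s
  · exact Or.inl ⟨h3, by rw [← h s hs']; exact h3⟩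
  · exact Or.inr ⟨h3, h.mono (insert_subset hs' inter_subset_right)⟩

section simp

variable {W : Finset V} {w : V} (hw : M.Simp W w)

include hw in
theorem nb_clique : ∀ i ∈ M.nb W w, ∀ j ∈ M.nb W w, i ≠ j → M.Adj i j := by
  intro i hi j hj hij
  rw [mem_nb] at hi hj
  exact hw.2 i hi.1 j hj.1 hi.2.1 hj.2.1 hij

include hw in
/-- neighbours of `w` are parents of the sink neighbour -/
theorem nb_sub_pa {s : V} (hs : s ∈ W) (h1 : M.sink s) (h2 : w ∈ M.Pa s) :
    M.nb W w ⊆ M.Pa s ∩ W.erase w := by
  intro a ha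
  have ha' := ha
  rw [mem_nb] at ha
  refine mem_inter.2 ⟨?_, M.nb_sub W w ha'⟩
  have has : a ≠ s := by
    rintro rfl
    exact ha.2.2 h1
  rcases hw.2 a ha.1 s hs ha.2.1 (Or.inl h2) has with h3 | h3
  · exact h3
  · exact absurd h3 (M.not_mem s h1 a)

include hw in
theorem sink_unique {s s' : V} (hs : s ∈ W) (h1 : M.sink s) (h2 : w ∈ M.Pa s) (hs' : s' ∈ W)
    (h1' : M.sink s') (h2' : w ∈ M.Pa s') : s = s' := by
  by_contra hne
  rcases hw.2 s hs s' hs' (Or.inl h2) (Or.inl h2') hne with h3 | h3
  · exact M.not_mem s h1 s' h3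
  · exact M.not_mem s' h1' s h3

include hw in
theorem keq_iff {s : V} (hs : s ∈ W) (h1 : M.sink s) (h2 : w ∈ M.Pa s) (c r : Out κ) :
    M.Keq W w c r ↔ Agree (M.nb W w) c r ∧
      ((c s = M.o s ∧ r s = M.o s) ∨
        (c s ≠ M.o s ∧ Agree (insert s (M.Pa s ∩ W.erase w)) c r)) := by
  constructor
  · intro h
    exact ⟨h.1, h.2 s hs h1 h2⟩
  · intro h
    refine ⟨h.1, fun s' hs' h1' h2' => ?_⟩
    rw [M.sink_unique hw hs' h1' h2' hs h1 h2]
    exact h.2

theorem keq_iff' (hno : ¬ ∃ s ∈ W, M.sink s ∧ w ∈ M.Pa s) (c r : Out κ) :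
    M.Keq W w c r ↔ Agree (M.nb W w) c r :=
  ⟨fun h => h.1, fun h => ⟨h, fun s hs h1 h2 => absurd ⟨s, hs, h1, h2⟩ hno⟩⟩

theorem nb_nonsink : ∀ i ∈ M.nb W w, ¬ M.sink i := fun _ hi => ((M.mem_nb).1 hi).2.2

include hw in
/-- the keys agree -/
theorem cnt_keq {f g : ι → Out κ} (h : M.StEq (W.erase w) f g) (c : Out κ) :
    cnt f (M.Keq W w c) = cnt g (M.Keq W w c) := by
  have hQ : cnt f (fun r => Agree (M.nb W w) r c) = cnt g (fun r => Agree (M.nb W w) r c) :=
    h _ (M.fam_clique (M.nb_sub W w) M.nb_nonsink (M.nb_clique hw) c)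
  by_cases hex : ∃ s ∈ W, M.sink s ∧ w ∈ M.Pa s
  · obtain ⟨s, hs, h1, h2⟩ := hex
    have hsw : s ≠ w := by
      rintro rfl
      exact M.irrefl _ h2
    have hs' : s ∈ W.erase w := mem_erase.2 ⟨hsw, hs⟩
    have hsub := M.nb_sub_pa hw hs h1 h2
    have hsub' : M.nb W w ⊆ insert s (M.Pa s ∩ W.erase w) := hsub.trans (subset_insert _ _)
    by_cases hc : c s = M.o s
    · have h3 : ∀ f : ι → Out κ, cnt f (M.Keq W w c) =
          cnt f (fun r => Agree (M.nb W w) r c ∧ r s = M.o s) := by
        intro f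
        refine cnt_congr f fun r => ?_
        rw [M.keq_iff hw hs h1 h2]
        constructor
        · rintro ⟨h4, h5 | h5⟩
          · exact ⟨h4.symm, h5.2⟩
          · exact absurd hc h5.1
        · rintro ⟨h4, h5⟩
          exact ⟨h4.symm, Or.inl ⟨hc, h5⟩⟩
      have h4 : cnt f (fun r => Agree (M.nb W w) r c ∧ ¬ r s = M.o s) =
          cnt g (fun r => Agree (M.nb W w) r c ∧ ¬ r s = M.o s) := by
        refine cnt_inv M.o f g (insert s (M.Pa s ∩ W.erase w)) _ ?_ ?_
        · intro r r' hr
          have e1 := hr s (mem_insert_self _ _)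
          rw [e1]
          exact and_congr_left fun _ => ⟨fun h5 => (hr.mono hsub').symm.trans h5,
            fun h5 => (hr.mono hsub').trans h5⟩
        · intro c' hc'
          exact h _ (M.fam_sink hs' h1 hc'.2)
      rw [cnt_split f _ (fun r => r s = M.o s), cnt_split g _ (fun r => r s = M.o s), h4] at hQ
      rw [h3 f, h3 g]
      exact Nat.add_right_cancel hQ
    · have h3 : ∀ f : ι → Out κ, cnt f (M.Keq W w c) =
          cnt f (fun r => Agree (insert s (M.Pa s ∩ W.erase w)) r c) := by
        intro f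
        refine cnt_congr f fun r => ?_
        rw [M.keq_iff hw hs h1 h2]
        constructor
        · rintro ⟨h4, h5 | h5⟩
          · exact absurd h5.1 hc
          · exact h5.2.symm
        · intro h4
          exact ⟨(h4.mono hsub').symm, Or.inr ⟨hc, h4.symm⟩⟩
      rw [h3 f, h3 g]
      exact h _ (M.fam_sink hs' h1 hc)
  · have h3 : ∀ f : ι → Out κ, cnt f (M.Keq W w c) = cnt f (fun r => Agree (M.nb W w) r c) := by
      intro f
      refine cnt_congr f fun r => ?_
      rw [M.keq_iff' hex]
      exact ⟨fun h => h.symm, fun h => h.symm⟩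
    rw [h3 f, h3 g, hQ]

/-- for a sink the neighbours are the parents -/
theorem nb_sink (h : M.sink w) : M.nb W w = M.Pa w ∩ W := by
  ext a
  rw [mem_nb, mem_inter]
  constructor
  · rintro ⟨h1, h2 | h2, -⟩
    · exact absurd h2 (M.not_mem w h a)
    · exact ⟨h2, h1⟩
  · rintro ⟨h1, h2⟩
    exact ⟨h2, Or.inr h1, fun h3 => M.not_mem a h3 w h1⟩

theorem agree_insert {Z : Finset V} {a : V} {r r' : Out κ} :
    Agree (insert a Z) r r' ↔ r a = r' a ∧ Agree Z r r' := by
  constructor
  · intro h
    exact ⟨h a (mem_insert_self _ _), h.mono (subset_insert _ _)⟩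
  · rintro ⟨h1, h2⟩ i hi
    rcases mem_insert.1 hi with rfl | hi
    · exact h1
    · exact h2 i hi

include hw in
/-- the keys together with the state of `w` agree -/
theorem cnt_keq' {f g : ι → Out κ} (h : M.StEq W f g) (c : Out κ) :
    cnt f (fun r => M.Keq W w c r ∧ r w = c w) = cnt g (fun r => M.Keq W w c r ∧ r w = c w) := by
  have hnbW : M.nb W w ⊆ W := (M.nb_sub W w).trans (erase_subset _ _)
  have hQ : cnt f (fun r => Agree (M.nb W w) r c) = cnt g (fun r => Agree (M.nb W w) r c) :=
    h _ (M.fam_clique hnbW M.nb_nonsink (M.nb_clique hw) c)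
  by_cases hsink : M.sink w
  · have hex : ¬ ∃ s ∈ W, M.sink s ∧ w ∈ M.Pa s := by
      rintro ⟨s, -, -, h2⟩
      exact M.not_mem w hsink s h2
    have h3 : ∀ f : ι → Out κ, cnt f (fun r => M.Keq W w c r ∧ r w = c w) =
        cnt f (fun r => Agree (M.nb W w) r c ∧ r w = c w) := by
      intro f
      refine cnt_congr f fun r => ?_
      rw [M.keq_iff' hex]
      exact and_congr_left fun _ => ⟨fun h => h.symm, fun h => h.symm⟩
    rw [h3 f, h3 g]
    by_cases hc : c w = M.o w
    · have h4 : cnt f (fun r => Agree (M.nb W w) r c ∧ ¬ r w = M.o w) =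
          cnt g (fun r => Agree (M.nb W w) r c ∧ ¬ r w = M.o w) := by
        refine cnt_inv M.o f g (insert w (M.Pa w ∩ W)) _ ?_ ?_
        · intro r r' hr
          rw [hr w (mem_insert_self _ _)]
          rw [M.nb_sink hsink]
          have hr' := hr.mono (subset_insert _ _)
          exact and_congr_left fun _ => ⟨fun h5 => hr'.symm.trans h5, fun h5 => hr'.trans h5⟩
        · intro c' hc'
          exact h _ (M.fam_sink hw.1 hsink hc'.2)
      rw [cnt_split f _ (fun r => r w = M.o w), cnt_split g _ (fun r => r w = M.o w), h4] at hQ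
      rw [hc]
      exact Nat.add_right_cancel hQ
    · have h4 : ∀ f : ι → Out κ, cnt f (fun r => Agree (M.nb W w) r c ∧ r w = c w) =
          cnt f (fun r => Agree (insert w (M.Pa w ∩ W)) r c) := by
        intro f
        refine cnt_congr f fun r => ?_
        rw [M.nb_sink hsink, agree_insert]
        exact and_comm
      rw [h4 f, h4 g]
      exact h _ (M.fam_sink hw.1 hsink hc)
  · by_cases hex : ∃ s ∈ W, M.sink s ∧ w ∈ M.Pa s
    · obtain ⟨s, hs, h1, h2⟩ := hex
      have hpa : M.Pa s ∩ W = insert w (M.Pa s ∩ W.erase w) := by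
        ext a
        rw [mem_insert, mem_inter, mem_inter, mem_erase]
        by_cases haw : a = w
        · subst haw
          simp [h2, hw.1]
        · simp [haw]
      have hsub := M.nb_sub_pa hw hs h1 h2
      have hclq : ∀ i ∈ insert w (M.nb W w), ∀ j ∈ insert w (M.nb W w), i ≠ j → M.Adj i j := by
        intro i hi j hj hij
        rcases mem_insert.1 hi with rfl | hi
        · rcases mem_insert.1 hj with rfl | hj
          · exact absurd rfl hij
          · exact ((M.mem_nb).1 hj).2.1
        · rcases mem_insert.1 hj with rfl | hj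
          · exact Adj.symm M ((M.mem_nb).1 hi).2.1
          · exact M.nb_clique hw i hi j hj hij
      have hns : ∀ i ∈ insert w (M.nb W w), ¬ M.sink i := by
        intro i hi
        rcases mem_insert.1 hi with rfl | hi
        · exact hsink
        · exact M.nb_nonsink i hi
      have hQ' : cnt f (fun r => Agree (insert w (M.nb W w)) r c) =
          cnt g (fun r => Agree (insert w (M.nb W w)) r c) :=
        h _ (M.fam_clique (insert_subset hw.1 hnbW) hns hclq c)
      have hsub' : insert w (M.nb W w) ⊆ insert s (M.Pa s ∩ W) := by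
        rw [hpa]
        exact (insert_subset_insert _ hsub).trans (subset_insert _ _)
      by_cases hc : c s = M.o s
      · have h3 : ∀ f : ι → Out κ, cnt f (fun r => M.Keq W w c r ∧ r w = c w) =
            cnt f (fun r => Agree (insert w (M.nb W w)) r c ∧ r s = M.o s) := by
          intro f
          refine cnt_congr f fun r => ?_
          rw [M.keq_iff hw hs h1 h2, agree_insert (a := w)]
          constructor
          · rintro ⟨⟨h4, h5 | h5⟩, h6⟩
            · exact ⟨⟨h6, h4.symm⟩, h5.2⟩
            · exact absurd hc h5.1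
          · rintro ⟨⟨h6, h4⟩, h5⟩
            exact ⟨⟨h4.symm, Or.inl ⟨hc, h5⟩⟩, h6⟩
        have h4 : cnt f (fun r => Agree (insert w (M.nb W w)) r c ∧ ¬ r s = M.o s) =
            cnt g (fun r => Agree (insert w (M.nb W w)) r c ∧ ¬ r s = M.o s) := by
          refine cnt_inv M.o f g (insert s (M.Pa s ∩ W)) _ ?_ ?_
          · intro r r' hr
            rw [hr s (mem_insert_self _ _)]
            exact and_congr_left fun _ => ⟨fun h5 => (hr.mono hsub').symm.trans h5,
              fun h5 => (hr.mono hsub').trans h5⟩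
          · intro c' hc'
            exact h _ (M.fam_sink hs h1 hc'.2)
        rw [cnt_split f _ (fun r => r s = M.o s), cnt_split g _ (fun r => r s = M.o s), h4] at hQ'
        rw [h3 f, h3 g]
        exact Nat.add_right_cancel hQ'
      · have h3 : ∀ f : ι → Out κ, cnt f (fun r => M.Keq W w c r ∧ r w = c w) =
            cnt f (fun r => Agree (insert s (M.Pa s ∩ W)) r c) := by
          intro f
          refine cnt_congr f fun r => ?_
          rw [M.keq_iff hw hs h1 h2, hpa, agree_insert, agree_insert, agree_insert]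
          constructor
          · rintro ⟨⟨h4, h5 | h5⟩, h6⟩
            · exact absurd h5.1 hc
            · exact ⟨h5.2.1.symm, h6, h5.2.2.symm⟩
          · rintro ⟨h4, h6, h5⟩
            exact ⟨⟨(h5.mono hsub).symm, Or.inr ⟨hc, h4.symm, h5.symm⟩⟩, h6⟩
        rw [h3 f, h3 g]
        exact h _ (M.fam_sink hs h1 hc)
    · have hclq : ∀ i ∈ insert w (M.nb W w), ∀ j ∈ insert w (M.nb W w), i ≠ j → M.Adj i j := by
        intro i hi j hj hij
        rcases mem_insert.1 hi with rfl | hi
        · rcases mem_insert.1 hj with rfl | hj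
          · exact absurd rfl hij
          · exact ((M.mem_nb).1 hj).2.1
        · rcases mem_insert.1 hj with rfl | hj
          · exact Adj.symm M ((M.mem_nb).1 hi).2.1
          · exact M.nb_clique hw i hi j hj hij
      have hns : ∀ i ∈ insert w (M.nb W w), ¬ M.sink i := by
        intro i hi
        rcases mem_insert.1 hi with rfl | hi
        · exact hsink
        · exact M.nb_nonsink i hi
      have h3 : ∀ f : ι → Out κ, cnt f (fun r => M.Keq W w c r ∧ r w = c w) =
          cnt f (fun r => Agree (insert w (M.nb W w)) r c) := by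
        intro f
        refine cnt_congr f fun r => ?_
        rw [M.keq_iff' hex, agree_insert]
        constructor
        · rintro ⟨h4, h6⟩
          exact ⟨h6, h4.symm⟩
        · rintro ⟨h6, h4⟩
          exact ⟨h4.symm, h6⟩
      rw [h3 f, h3 g]
      exact h _ (M.fam_clique (insert_subset hw.1 hnbW) hns hclq c)

/-- statistics either do not involve `w` or are functions of the key and of the state of `w` -/
theorem fam_cases {P : Out κ → Prop} (hP : P ∈ M.Fam W) :
    P ∈ M.Fam (W.erase w) ∨ ∀ r r', M.Keq W w r r' → r w = r' w → (P r ↔ P r') := by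
  rcases hP with ⟨Q, hQ, h2, h3, c, rfl⟩ | ⟨s, hs, hs2, c, hc, rfl⟩
  · by_cases hwQ : w ∈ Q
    · right
      have hsub : Q ⊆ insert w (M.nb W w) := by
        intro i hi
        by_cases hiw : i = w
        · rw [hiw]; exact mem_insert_self _ _
        · exact mem_insert_of_mem ((M.mem_nb).2 ⟨hQ hi, h3 w hwQ i hi (Ne.symm hiw), h2 i hi⟩)
      intro r r' hk hr
      have hag : Agree Q r r' := (agree_insert.2 ⟨hr, hk.1⟩ : Agree (insert w (M.nb W w)) r r').mono
        hsub
      exact ⟨fun h1 => hag.symm.trans h1, fun h1 => hag.trans h1⟩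
    · left
      refine M.fam_clique ?_ h2 h3 c
      intro i hi
      refine mem_erase.2 ⟨?_, hQ hi⟩
      rintro rfl
      exact hwQ hi
  · by_cases hsw : s = w
    · right
      subst hsw
      intro r r' hk hr
      have h4 := hk.1
      rw [M.nb_sink hs2] at h4
      have hag := agree_insert.2 ⟨hr, h4⟩
      exact ⟨fun h1 => hag.symm.trans h1, fun h1 => hag.trans h1⟩
    · by_cases hwp : w ∈ M.Pa s
      · right
        intro r r' hk hr
        rcases hk.2 s hs hs2 hwp with h5 | h5
        · constructor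
          · intro h6
            exfalso
            apply hc
            rw [← h6 s (mem_insert_self _ _)]
            exact h5.1
          · intro h6
            exfalso
            apply hc
            rw [← h6 s (mem_insert_self _ _)]
            exact h5.2
        · have hag : Agree (insert s (M.Pa s ∩ W)) r r' := by
            intro i hi
            by_cases hiw : i = w
            · rw [hiw]; exact hr
            · refine h5.2 i ?_
              rcases mem_insert.1 hi with rfl | hi
              · exact mem_insert_self _ _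
              · rw [mem_inter] at hi
                exact mem_insert_of_mem (mem_inter.2 ⟨hi.1, mem_erase.2 ⟨hiw, hi.2⟩⟩)
          exact ⟨fun h1 => hag.symm.trans h1, fun h1 => hag.trans h1⟩
      · left
        have : M.Pa s ∩ W = M.Pa s ∩ W.erase w := by
          ext a
          rw [mem_inter, mem_inter, mem_erase]
          constructor
          · rintro ⟨h1, h2⟩
            refine ⟨h1, ?_, h2⟩
            rintro rfl
            exact hwp h1
          · rintro ⟨h1, -, h2⟩
            exact ⟨h1, h2⟩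
        rw [this]
        exact M.fam_sink (mem_erase.2 ⟨hsw, hs⟩) hs2 hc

end simp

end Model

end Q49.BN
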