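import Pool.Agent.Q49.BN.Comb

/-!
# Connectivity of the fibres
-/

set_option autoImplicit false
set_option linter.unusedSectionVars false

namespace Q49.BN

open Finset Relation

variable {V : Type} [Fintype V] [DecidableEq V] {κ : V → ℕ}

namespace Model

variable (M : Model V κ) {ι : Type} [Fintype ι] [DecidableEq ι]

/-- A step: changing coordinates outside of `W`, or changing two rows without changing the
statistics. -/
inductive Step (W : Finset V) : (ι → Out κ) → (ι → Out κ) → Prop
  | ign (f g : ι → Out κ) (h : ∀ k, Agree W (f k) (g k)) : Step W f g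
  | move (f g : ι → Out κ) (k l : ι) (hkl : k ≠ l)
      (hoff : ∀ m, m ≠ k → m ≠ l → f m = g m) (h : M.StEq W f g) : Step W f g

theorem step_stEq {W : Finset V} {f g : ι → Out κ} (h : M.Step W f g) : M.StEq W f g := by
  cases h with
  | ign h => exact M.stEq_of_agree h
  | move k l hkl hoff h => exact h

theorem stEq_trans {W : Finset V} {f g h : ι → Out κ} (h1 : M.StEq W f g) (h2 : M.StEq W g h) :
    M.StEq W f h := fun P hP => (h1 P hP).trans (h2 P hP)

theorem stEq_symm {W : Finset V} {f g : ι → Out κ} (h1 : M.StEq W f g) : M.StEq W g f :=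
  fun P hP => (h1 P hP).symm

theorem conn_stEq {W : Finset V} {f g : ι → Out κ} (h : ReflTransGen (M.Step W) f g) :
    M.StEq W f g := by
  induction h with
  | refl => exact fun P _ => rfl
  | tail _ h2 ih => exact M.stEq_trans ih (M.step_stEq h2)

section

variable {W : Finset V} {w : V} (hw : M.Simp W w)

include hw in
/-- matching of two pairs of rows -/
theorem match_two {f g : ι → Out κ} {k l : ι} (hkl : k ≠ l)
    (hoff : ∀ m, m ≠ k → m ≠ l → f m = g m) (h : M.StEq (W.erase w) f g) :
    (M.Keq W w (f k) (g k) ∧ M.Keq W w (f l) (g l)) ∨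
      (M.Keq W w (f k) (g l) ∧ M.Keq W w (f l) (g k)) := by
  have hc : ∀ c, ind (M.Keq W w c) (f k) + ind (M.Keq W w c) (f l) =
      ind (M.Keq W w c) (g k) + ind (M.Keq W w c) (g l) := fun c =>
    (cnt_pair hkl hoff _).1 (M.cnt_keq hw h c)
  have hrefl : ∀ r, M.Keq W w r r := fun r => M.keq_of_agree fun _ _ => rfl
  have h1 := hc (f k)
  rw [ind_pos (hrefl (f k))] at h1
  have h2 := hc (f l)
  rw [ind_pos (hrefl (f l))] at h2
  by_cases h3 : M.Keq W w (f k) (g k)
  · left
    refine ⟨h3, ?_⟩
    have h4 : ind (M.Keq W w (f l)) (f k) = ind (M.Keq W w (f l)) (g k) :=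
      ind_congr ⟨fun h => M.keq_trans h h3, fun h => M.keq_trans h (M.keq_symm h3)⟩
    rw [h4] at h2
    exact ind_ne (by omega)
  · right
    rw [ind_neg h3] at h1
    have h5 : M.Keq W w (f k) (g l) := ind_ne (by omega)
    refine ⟨h5, ?_⟩
    have h4 : ind (M.Keq W w (f l)) (f k) = ind (M.Keq W w (f l)) (g l) :=
      ind_congr ⟨fun h => M.keq_trans h h5, fun h => M.keq_trans h (M.keq_symm h5)⟩
    rw [h4] at h2
    exact ind_ne (by omega)

/-- two rows with prescribed states of `w` -/
def mk2 (f n : ι → Out κ) (k l : ι) (w : V) (x y : Fin (κ w)) : ι → Out κ :=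
  fun m => if m = k then Function.update (n k) w x else
    if m = l then Function.update (n l) w y else f m

theorem agree_update {r : Out κ} {w : V} {x : Fin (κ w)} (W : Finset V) :
    Agree (W.erase w) (Function.update r w x) r := by
  intro i hi
  rw [Function.update_of_ne (ne_of_mem_erase hi)]

theorem mk2_agree {f n : ι → Out κ} {k l : ι} {x y : Fin (κ w)}
    (h : ∀ m, m ≠ k → m ≠ l → Agree (W.erase w) (f m) (n m)) (m : ι) :
    Agree (W.erase w) (mk2 f n k l w x y m) (n m) := by
  unfold mk2
  split_ifs with h1 h2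
  · rw [h1]; exact agree_update W
  · rw [h2]; exact agree_update W
  · exact h m h1 h2

/-- the statistics are preserved by a matched change of two rows -/
theorem stEq_mk2 {f n : ι → Out κ} {k l : ι} (hkl : k ≠ l) {x y : Fin (κ w)}
    (hoff : ∀ m, m ≠ k → m ≠ l → Agree (W.erase w) (f m) (n m))
    (h : M.StEq (W.erase w) f n)
    (hm : (M.Keq W w (f k) (n k) ∧ M.Keq W w (f l) (n l) ∧ x = f k w ∧ y = f l w) ∨
      (M.Keq W w (f k) (n l) ∧ M.Keq W w (f l) (n k) ∧ x = f l w ∧ y = f k w)) :
    M.StEq W f (mk2 f n k l w x y) := by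
  have hag := mk2_agree (W := W) (x := x) (y := y) hoff
  have h' : M.StEq (W.erase w) f (mk2 f n k l w x y) :=
    M.stEq_trans h (M.stEq_symm (M.stEq_of_agree hag))
  have hoff' : ∀ m, m ≠ k → m ≠ l → f m = mk2 f n k l w x y m := by
    intro m h1 h2
    unfold mk2
    rw [if_neg h1, if_neg h2]
  have ek : mk2 f n k l w x y k w = x := by
    unfold mk2
    rw [if_pos rfl, Function.update_self]
  have el : mk2 f n k l w x y l w = y := by
    unfold mk2
    rw [if_neg (Ne.symm hkl), if_pos rfl, Function.update_self]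
  have kk : M.Keq W w (n k) (mk2 f n k l w x y k) := M.keq_of_agree (hag k).symm
  have kl : M.Keq W w (n l) (mk2 f n k l w x y l) := M.keq_of_agree (hag l).symm
  intro P hP
  rcases M.fam_cases (w := w) hP with h1 | h1
  · exact h' P h1
  · rw [cnt_pair hkl hoff']
    rcases hm with ⟨h2, h3, rfl, rfl⟩ | ⟨h2, h3, rfl, rfl⟩
    · rw [ind_congr (h1 _ _ (M.keq_trans h2 kk) ek.symm),
        ind_congr (h1 _ _ (M.keq_trans h3 kl) el.symm)]
    · rw [ind_congr (h1 _ _ (M.keq_trans h2 kl) el.symm),
        ind_congr (h1 _ _ (M.keq_trans h3 kk) ek.symm), add_comm]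

include hw in
/-- steps can be lifted -/
theorem lift_step {f n n' : ι → Out κ} (hfn : ∀ k, Agree (W.erase w) (f k) (n k))
    (h : M.Step (W.erase w) n n') :
    ∃ f', ReflTransGen (M.Step W) f f' ∧ ∀ k, Agree (W.erase w) (f' k) (n' k) := by
  cases h with
  | ign h => exact ⟨f, ReflTransGen.refl, fun k => (hfn k).trans (h k)⟩
  | move k l hkl hoff h =>
    have hoff' : ∀ m, m ≠ k → m ≠ l → Agree (W.erase w) (f m) (n' m) := by
      intro m h1 h2
      rw [← hoff m h1 h2]
      exact hfn m
    have h1 : M.StEq (W.erase w) f n' := M.stEq_trans (M.stEq_of_agree hfn) h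
    -- the auxiliary family
    set f1 : ι → Out κ := fun m => if m = k then n' k else if m = l then n' l else f m with hf1
    have hf1a : ∀ m, Agree (W.erase w) (f1 m) (n' m) := by
      intro m
      rw [hf1]
      beta_reduce
      split_ifs with h2 h3
      · rw [h2]; exact fun _ _ => rfl
      · rw [h3]; exact fun _ _ => rfl
      · exact hoff' m h2 h3
    have h2 : M.StEq (W.erase w) f f1 := M.stEq_trans h1 (M.stEq_symm (M.stEq_of_agree hf1a))
    have h3 : ∀ m, m ≠ k → m ≠ l → f m = f1 m := by
      intro m h4 h5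
      rw [hf1]
      beta_reduce
      rw [if_neg h4, if_neg h5]
    have e1 : f1 k = n' k := by rw [hf1]; beta_reduce; rw [if_pos rfl]
    have e2 : f1 l = n' l := by rw [hf1]; beta_reduce; rw [if_neg (Ne.symm hkl), if_pos rfl]
    have h4 := M.match_two hw hkl h3 h2
    rw [e1, e2] at h4
    obtain ⟨x, y, hxy⟩ : ∃ x y : Fin (κ w),
        (M.Keq W w (f k) (n' k) ∧ M.Keq W w (f l) (n' l) ∧ x = f k w ∧ y = f l w) ∨
        (M.Keq W w (f k) (n' l) ∧ M.Keq W w (f l) (n' k) ∧ x = f l w ∧ y = f k w) := by
      rcases h4 with ⟨h5, h6⟩ | ⟨h5, h6⟩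
      · exact ⟨_, _, Or.inl ⟨h5, h6, rfl, rfl⟩⟩
      · exact ⟨_, _, Or.inr ⟨h5, h6, rfl, rfl⟩⟩
    refine ⟨mk2 f n' k l w x y, ReflTransGen.single (Step.move _ _ k l hkl ?_
      (M.stEq_mk2 hkl hoff' h1 hxy)), fun m => mk2_agree hoff' m⟩
    intro m h5 h6
    unfold mk2
    rw [if_neg h5, if_neg h6]

include hw in
theorem lift_conn {f n n' : ι → Out κ} (hfn : ∀ k, Agree (W.erase w) (f k) (n k))
    (h : ReflTransGen (M.Step (W.erase w)) n n') :
    ∃ f', ReflTransGen (M.Step W) f f' ∧ ∀ k, Agree (W.erase w) (f' k) (n' k) := by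
  induction h with
  | refl => exact ⟨f, ReflTransGen.refl, hfn⟩
  | tail _ h2 ih =>
    obtain ⟨f1, h3, h4⟩ := ih
    obtain ⟨f2, h5, h6⟩ := M.lift_step hw h4 h2
    exact ⟨f2, h3.trans h5, h6⟩

open Classical in
include hw in
/-- two families which only differ in the states of `w` -/
theorem final : ∀ (N : ℕ) (f g : ι → Out κ), (∀ k, Agree (W.erase w) (f k) (g k)) →
    M.StEq W f g → (univ.filter fun k => f k w ≠ g k w).card = N →
    ReflTransGen (M.Step W) f g := by
  intro N
  induction N using Nat.strong_induction_on with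
  | _ N ih =>
    intro f g hfg hst hN
    by_cases h0 : ∃ k, f k w ≠ g k w
    · obtain ⟨k, hk⟩ := h0
      have hc := M.cnt_keq' hw hst (g k)
      have hrefl : ∀ r, M.Keq W w r r := fun r => M.keq_of_agree fun _ _ => rfl
      obtain ⟨l, hlA, hlB⟩ : ∃ l, (M.Keq W w (g k) (f l) ∧ f l w = g k w) ∧
          ¬ (M.Keq W w (g k) (g l) ∧ g l w = g k w) := by
        by_contra hcon
        push Not at hcon
        have hss : (univ.filter fun m => M.Keq W w (g k) (f m) ∧ f m w = g k w) ⊂
            univ.filter fun m => M.Keq W w (g k) (g m) ∧ g m w = g k w := by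
          rw [ssubset_iff_of_subset]
          · refine ⟨k, ?_, ?_⟩
            · rw [mem_filter]
              exact ⟨mem_univ _, hrefl _, rfl⟩
            · rw [mem_filter]
              exact fun h => hk h.2.2
          · intro m hm
            rw [mem_filter] at hm ⊢
            exact ⟨mem_univ _, hcon m hm.2⟩
        have h5 := card_lt_card hss
        have h6 : (univ.filter fun m => M.Keq W w (g k) (f m) ∧ f m w = g k w).card =
            (univ.filter fun m => M.Keq W w (g k) (g m) ∧ g m w = g k w).card := by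
          unfold cnt at hc
          convert hc
        rw [h6] at h5
        exact lt_irrefl _ h5
      have hkl : k ≠ l := by
        rintro rfl
        exact hk hlA.2
      have hgl : M.Keq W w (g k) (g l) := M.keq_trans hlA.1 (M.keq_of_agree (hfg l))
      have hglw : g l w ≠ g k w := fun h => hlB ⟨hgl, h⟩
      have hkk : M.Keq W w (g k) (f k) := M.keq_of_agree (hfg k).symm
      have hkl' : M.Keq W w (f k) (f l) := M.keq_trans (M.keq_symm hkk) hlA.1
      set f' : ι → Out κ := mk2 f f k l w (f l w) (f k w) with hf'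
      have hst' : M.StEq W f f' := M.stEq_mk2 hkl (fun _ _ _ => fun _ _ => rfl)
        (fun _ _ => rfl) (Or.inr ⟨hkl', M.keq_symm hkl', rfl, rfl⟩)
      have hag : ∀ m, Agree (W.erase w) (f' m) (f m) :=
        mk2_agree (fun _ _ _ => fun _ _ => rfl)
      have hstep : M.Step W f f' := Step.move _ _ k l hkl (fun m h5 h6 => by
        rw [hf']
        unfold mk2
        rw [if_neg h5, if_neg h6]) hst'
      refine (ReflTransGen.single hstep).trans (ih _ ?_ f' g
        (fun m => (hag m).trans (hfg m)) (M.stEq_trans (M.stEq_symm hst') hst) rfl)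
      rw [← hN]
      apply card_lt_card
      rw [ssubset_iff_of_subset]
      · refine ⟨k, ?_, ?_⟩
        · rw [mem_filter]
          exact ⟨mem_univ _, hk⟩
        · rw [mem_filter]
          rintro ⟨-, h5⟩
          apply h5
          rw [hf']
          unfold mk2
          rw [if_pos rfl, Function.update_self]
          exact hlA.2
      · intro m hm
        rw [mem_filter] at hm ⊢
        refine ⟨mem_univ _, ?_⟩
        by_cases hmk : m = k
        · rw [hmk]; exact hk
        · by_cases hml : m = l
          · rw [hml, hlA.2]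
            exact Ne.symm hglw
          · have h5 := hm.2
            rw [hf'] at h5
            unfold mk2 at h5
            rwa [if_neg hmk, if_neg hml] at h5
    · push Not at h0
      refine ReflTransGen.single (Step.ign _ _ fun k => ?_)
      intro i hi
      by_cases hiw : i = w
      · rw [hiw]; exact h0 k
      · exact hfg k i (mem_erase.2 ⟨hiw, hi⟩)

end

/-- If every nonempty set of vertices has a simplicial vertex, then all fibres are connected. -/
theorem conn_of_stEq (hch : ∀ W : Finset V, W.Nonempty → ∃ w, M.Simp W w) :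
    ∀ (N : ℕ) (W : Finset V), W.card = N → ∀ f g : ι → Out κ, M.StEq W f g →
      ReflTransGen (M.Step W) f g := by
  intro N
  induction N with
  | zero =>
    intro W hW f g _
    rw [card_eq_zero] at hW
    subst hW
    exact ReflTransGen.single (Step.ign _ _ fun k i hi => absurd hi (notMem_empty _))
  | succ N ih =>
    intro W hW f g hfg
    obtain ⟨w, hw⟩ := hch W (card_pos.1 (by omega))
    have h1 : (W.erase w).card = N := by rw [card_erase_of_mem hw.1, hW]; rfl
    have h2 := ih _ h1 f g (M.stEq_mono hfg)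
    obtain ⟨f', h3, h4⟩ := M.lift_conn hw (fun k => fun _ _ => rfl) h2
    exact h3.trans (M.final hw _ f' g h4 (M.stEq_trans (M.stEq_symm (M.conn_stEq h3)) hfg) rfl)

end Model

end Q49.BN
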