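import Mathlib

/-!
# Bayesian networks, the ideal `P_G` and the global Markov ideal
-/

set_option autoImplicit false

namespace Q49.BN

open MvPolynomial

/-- A Bayesian network: a directed acyclic graph on the vertices `0, …, n-1` together with the
number `κ i ≥ 2` of states of each vertex `i`. -/
structure BNet (n : ℕ) where
  /-- `edge i j` says that `i → j` is an edge -/
  edge : Fin n → Fin n → Prop
  acyclic : ∀ i, ¬ Relation.TransGen edge i i
  /-- the number of states -/
  κ : Fin n → ℕ
  two_le : ∀ i, 2 ≤ κ i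

namespace BNet

variable {n : ℕ} (G : BNet n)

/-! ### The ideal `P_G` -/

/-- the joint states `u = (u_1, …, u_n)` -/
abbrev Outcome : Type := (i : Fin n) → Fin (G.κ i)

/-- the joint states `b` of the parents of `j` -/
abbrev PaConfig (j : Fin n) : Type := (i : {i : Fin n // G.edge i j}) → Fin (G.κ i)

/-- the indices `(j, a, b)` of the parameters `θ(X_j = a | b)` -/
abbrev Param : Type := (j : Fin n) × (Fin (G.κ j) × G.PaConfig j)

/-- The polynomial ring `ℝ[Θ, z]`; the variable `some (j, a, b)` is `θ(X_j = a | b)` and the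
variable `none` is `z`. -/
abbrev ParamRing : Type := MvPolynomial (Option G.Param) ℝ

/-- the parameter `θ(X_j = a | b)` -/
noncomputable def θ (j : Fin n) (a : Fin (G.κ j)) (b : G.PaConfig j) : G.ParamRing :=
  X (some ⟨j, a, b⟩)

/-- the variable `z` -/
noncomputable def z : G.ParamRing := X none

/-- the ideal generated by all `∑_a θ(X_j = a | b) - z` -/
noncomputable def J : Ideal G.ParamRing :=
  Ideal.span {p | ∃ (j : Fin n) (b : G.PaConfig j), p = ∑ a : Fin (G.κ j), G.θ j a b - G.z}

/-- the homomorphism `x_u ↦ ∏_j θ(X_j = u_j | u_{Pa(j)})` from `ℝ[x]` to `ℝ[Θ, z]/J` -/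
noncomputable def φ : MvPolynomial G.Outcome ℝ →ₐ[ℝ] G.ParamRing ⧸ G.J :=
  aeval fun u => Ideal.Quotient.mk G.J (∏ j : Fin n, G.θ j (u j) fun i => u i)

/-- the ideal `P_G` -/
noncomputable def P : Ideal (MvPolynomial G.Outcome ℝ) := RingHom.ker G.φ

/-! ### The graph -/

/-- the underlying undirected graph -/
def skel : SimpleGraph (Fin n) where
  Adj i j := G.edge i j ∨ G.edge j i
  symm := ⟨fun _ _ h => h.symm⟩
  loopless := ⟨fun i h => by
    rcases h with h | h <;> exact G.acyclic i (Relation.TransGen.single h)⟩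

/-- `i` has no children -/
def IsSink (i : Fin n) : Prop := ∀ j, ¬ G.edge i j

/-- The induced subgraph on the non-sinks is perfect: any two distinct parents of a non-sink are
adjacent. (Parents are never sinks.) -/
def NonSinkPerfect : Prop :=
  ∀ i, ¬ G.IsSink i → ∀ j k, G.edge j i → G.edge k i → j ≠ k → G.skel.Adj j k

/-- There is no induced cycle of length greater than three. -/
def NoLongInducedCycle : Prop := ∀ k : ℕ, 3 < k → IsEmpty (SimpleGraph.cycleGraph k ↪g G.skel)

/-! ### The global Markov ideal -/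

/-- The `k`-th vertex of the trail is a collider: `→ j ←`. -/
def IsCollider {i j : Fin n} (p : G.skel.Walk i j) (k : ℕ) : Prop :=
  G.edge (p.getVert (k - 1)) (p.getVert k) ∧ G.edge (p.getVert (k + 1)) (p.getVert k)

/-- The conditional independence statement `A ⊥ B | C` holds: every trail (path in the underlying
undirected graph) from `A` to `B` passes through a vertex `j` such that either `j ∈ C` and the
trail is not `→ j ←` at `j`, or the trail is `→ j ←` at `j` and neither `j` nor a descendant of `j`
is in `C`. -/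
def DSep (A B C : Finset (Fin n)) : Prop :=
  ∀ a ∈ A, ∀ b ∈ B, ∀ p : G.skel.Walk a b, p.IsPath → ∃ k, 0 < k ∧ k < p.length ∧
    ((p.getVert k ∈ C ∧ ¬ G.IsCollider p k) ∨
      (G.IsCollider p k ∧ ∀ d, Relation.ReflTransGen G.edge (p.getVert k) d → d ∉ C))

open Classical in
/-- the sum of all `x_w` with `w` agreeing with `u` on `W` -/
noncomputable def marg (W : Finset (Fin n)) (u : G.Outcome) : MvPolynomial G.Outcome ℝ :=
  ∑ w : G.Outcome with (∀ i ∈ W, w i = u i), X w

/-- the states of `v` on `A` and those of `u` elsewhere -/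
def mix (A : Finset (Fin n)) (v u : G.Outcome) : G.Outcome := fun i => if i ∈ A then v i else u i

/-- The minor `x_{abc} x_{a'b'c} - x_{a'bc} x_{ab'c}`, where `(a, b, c)` are the states of `u` and
`(a', b', c)` are the states of `u'` (which agree on `C`). -/
noncomputable def minor (A B C : Finset (Fin n)) (u u' : G.Outcome) : MvPolynomial G.Outcome ℝ :=
  G.marg (A ∪ B ∪ C) u * G.marg (A ∪ B ∪ C) u' -
    G.marg (A ∪ B ∪ C) (G.mix A u' u) * G.marg (A ∪ B ∪ C) (G.mix A u u')

/-- the ideal `I_{global(G)}` -/
noncomputable def globalIdeal : Ideal (MvPolynomial G.Outcome ℝ) :=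
  Ideal.span {f | ∃ A B C : Finset (Fin n), A.Nonempty ∧ B.Nonempty ∧ Disjoint A B ∧
    Disjoint A C ∧ Disjoint B C ∧ G.DSep A B C ∧
    ∃ u u' : G.Outcome, (∀ i ∈ C, u i = u' i) ∧ f = G.minor A B C u u'}

end BNet

end Q49.BN
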