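import Pool.Agent.Q49.BN.Main

/-!
# From the kernel of the parametrisation to the kernel of the monomial map
-/

set_option autoImplicit false
set_option linter.unusedSectionVars false

namespace Q49.BN

open Finset MvPolynomial

namespace BNet

variable {n : ℕ} (G : BNet n)

open Classical in
/-- a state with given values at the parents of `j` -/
noncomputable def pav (j : Fin n) (b : G.PaConfig j) : G.Outcome :=
  fun i => if h : G.edge i j then b ⟨i, h⟩ else G.o i

theorem agree_pav (j : Fin n) (u : G.Outcome) :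
    Agree (insert j (G.model.Pa j)) (Function.update (G.pav j fun i => u i) j (u j)) u := by
  intro i hi
  by_cases hij : i = j
  · subst hij
    rw [Function.update_self]
  · rw [Function.update_of_ne hij]
    have h := G.mem_Pa.1 ((mem_insert.1 hi).resolve_left hij)
    unfold pav
    rw [dif_pos h]

section

variable (t : Option G.Param → ℝ) (θ : Fin n → G.Outcome → ℝ) (z : ℝ)

open Classical in
/-- the values of the parameters -/
noncomputable def pv : Option G.Param → ℝ
  | none => z
  | some ⟨j, a, b⟩ =>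
    if G.IsSink j then
      if a = G.o j then z - ∑ a' ∈ univ.erase (G.o j), z * t (some ⟨j, a', b⟩)
      else z * t (some ⟨j, a, b⟩)
    else z * θ j (Function.update (G.pav j b) j a)

theorem pv_sink_o {j : Fin n} (hj : G.IsSink j) (b : G.PaConfig j) :
    G.pv t θ z (some ⟨j, G.o j, b⟩) = z - ∑ a' ∈ univ.erase (G.o j), z * t (some ⟨j, a', b⟩) := by
  classical
  unfold pv
  dsimp only
  rw [if_pos hj, if_pos rfl]

theorem pv_sink {j : Fin n} (hj : G.IsSink j) {a : Fin (G.κ j)} (ha : a ≠ G.o j)
    (b : G.PaConfig j) : G.pv t θ z (some ⟨j, a, b⟩) = z * t (some ⟨j, a, b⟩) := by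
  classical
  unfold pv
  dsimp only
  rw [if_pos hj, if_neg ha]

theorem pv_nonsink {j : Fin n} (hj : ¬ G.IsSink j) (a : Fin (G.κ j)) (b : G.PaConfig j) :
    G.pv t θ z (some ⟨j, a, b⟩) = z * θ j (Function.update (G.pav j b) j a) := by
  classical
  unfold pv
  dsimp only
  rw [if_neg hj]

variable (hθ2 : ∀ j, ¬ G.IsSink j → ∀ u, ∑ a, θ j (Function.update u j a) = 1)

include hθ2 in
theorem pv_sum (j : Fin n) (b : G.PaConfig j) : ∑ a, G.pv t θ z (some ⟨j, a, b⟩) = z := by
  classical
  by_cases hj : G.IsSink j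
  · rw [← add_sum_erase univ _ (mem_univ (G.o j)), G.pv_sink_o t θ z hj]
    have : ∑ a ∈ univ.erase (G.o j), G.pv t θ z (some ⟨j, a, b⟩) =
        ∑ a ∈ univ.erase (G.o j), z * t (some ⟨j, a, b⟩) :=
      Finset.sum_congr rfl fun a ha => G.pv_sink t θ z hj (ne_of_mem_erase ha) b
    rw [this, sub_add_cancel]
  · simp only [G.pv_nonsink t θ z hj]
    rw [← Finset.mul_sum, hθ2 j hj, mul_one]

include hθ2 in
theorem pv_J (f : G.ParamRing) (hf : f ∈ G.J) : eval (G.pv t θ z) f = 0 := by
  have h1 : G.J ≤ RingHom.ker (eval (G.pv t θ z)) := by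
    unfold J
    rw [Ideal.span_le]
    rintro f ⟨j, b, rfl⟩
    rw [SetLike.mem_coe, RingHom.mem_ker, map_sub, map_sum]
    unfold BNet.θ BNet.z
    simp only [eval_X]
    rw [G.pv_sum t θ z hθ2 j b]
    exact sub_self z
  exact h1 hf

/-- the point of the quotient ring -/
noncomputable def ev : G.ParamRing ⧸ G.J →+* ℝ :=
  Ideal.Quotient.lift G.J (eval (G.pv t θ z)) (G.pv_J t θ z hθ2)

theorem ev_X (w : G.Outcome) :
    G.ev t θ z hθ2 (G.φ (X w)) = ∏ j, G.pv t θ z (some (G.ix j w)) := by
  unfold φ ev
  rw [aeval_X, Ideal.Quotient.lift_mk, map_prod]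
  refine Finset.prod_congr rfl fun j _ => ?_
  unfold BNet.θ
  rw [eval_X]
  rfl

variable (hθ1 : ∀ j, G.Dep (θ j) (insert j (G.model.Pa j)))

open Classical in
theorem ev_yv (u : G.Outcome) : G.ev t θ z hθ2 (G.φ (G.yv u)) =
    ∏ j, if G.Tok u j then G.pv t θ z (some (G.ix j u)) else z := by
  unfold yv
  rw [map_sum, map_sum]
  simp only [ev_X]
  have h1 : (univ.filter fun w => G.Ext u w) =
      Fintype.piFinset fun j => if G.Tok u j then {u j} else univ := by
    ext w
    rw [mem_filter, Fintype.mem_piFinset]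
    constructor
    · rintro ⟨-, h⟩ j
      split_ifs with hj
      · rw [mem_singleton]; exact h j hj
      · exact mem_univ _
    · intro h
      refine ⟨mem_univ _, fun j hj => ?_⟩
      have h2 := h j
      rw [if_pos (show G.Tok u j from hj), mem_singleton] at h2
      exact h2
  have h2 : ∀ w ∈ univ.filter (fun w => G.Ext u w), ∏ j, G.pv t θ z (some (G.ix j w)) =
      ∏ j, G.pv t θ z (some ⟨j, w j, fun i => u i⟩) := by
    intro w hw
    rw [mem_filter] at hw
    refine Finset.prod_congr rfl fun j _ => ?_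
    unfold ix
    have : (fun i : {i : Fin n // G.edge i j} => w i) =
        fun i : {i : Fin n // G.edge i j} => u i := by
      funext i
      exact hw.2 i (Or.inl fun hs => hs j i.2)
    rw [this]
  rw [Finset.sum_congr rfl h2, h1, ← Finset.prod_univ_sum
    (fun j => if G.Tok u j then {u j} else univ)
    (fun j a => G.pv t θ z (some ⟨j, a, fun i => u i⟩))]
  refine Finset.prod_congr rfl fun j _ => ?_
  split_ifs with hj
  · rw [sum_singleton]
    rfl
  · exact G.pv_sum t θ z hθ2 j _

include hθ1 in
open Classical in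
theorem prod_val (c : ℝ) (hc : ∀ u, ∏ j with ¬ G.IsSink j, t (some (G.ix j u)) =
      c * ∏ j with ¬ G.IsSink j, θ j u) (hz : z ^ n = c * t none) (u : G.Outcome) :
    ∏ j, (if G.Tok u j then G.pv t θ z (some (G.ix j u)) else z) =
      t none * ∏ j with G.Tok u j, t (some (G.ix j u)) := by
  have h1 : ∀ j, (if G.Tok u j then G.pv t θ z (some (G.ix j u)) else z) =
      z * ((if ¬ G.IsSink j then θ j u else 1) *
        (if G.IsSink j ∧ G.Tok u j then t (some (G.ix j u)) else 1)) := by
    intro j
    by_cases hj : G.IsSink j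
    · by_cases hu : G.Tok u j
      · rw [if_pos hu, if_neg (not_not.2 hj), if_pos ⟨hj, hu⟩, one_mul]
        exact G.pv_sink t θ z hj (hu.resolve_left (not_not.2 hj)) _
      · rw [if_neg hu, if_neg (not_not.2 hj), if_neg fun h => hu h.2, one_mul, mul_one]
    · rw [if_pos (show G.Tok u j from Or.inl hj), if_pos hj, if_neg fun h => hj h.1, mul_one]
      unfold ix
      rw [G.pv_nonsink t θ z hj, hθ1 j _ u (G.agree_pav j u)]
  simp only [h1]
  rw [Finset.prod_mul_distrib, Finset.prod_const, Finset.card_univ, Fintype.card_fin, hz,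
    Finset.prod_mul_distrib, ← Finset.prod_filter, ← Finset.prod_filter]
  have h2 : ∏ j with G.Tok u j, t (some (G.ix j u)) =
      (∏ j with ¬ G.IsSink j, t (some (G.ix j u))) *
        ∏ j with (G.IsSink j ∧ G.Tok u j), t (some (G.ix j u)) := by
    rw [← Finset.prod_union]
    · refine Finset.prod_congr ?_ fun _ _ => rfl
      ext j
      simp only [mem_filter, mem_univ, true_and, mem_union]
      constructor
      · intro h
        by_cases hj : G.IsSink j
        · exact Or.inr ⟨hj, h⟩
        · exact Or.inl hj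
      · rintro (h | h)
        · exact Or.inl h
        · exact h.2
    · rw [Finset.disjoint_filter]
      rintro j - h1 h2
      exact h1 h2.1
  rw [h2, hc u]
  ring

end

/-- The kernel of the parametrisation, in the new variables, is contained in the kernel of the
monomial map. -/
theorem ker_le (hn : n ≠ 0) (hperf : G.NonSinkPerfect) {F : MvPolynomial G.Outcome ℝ}
    (hF : G.φ (G.β F) = 0) : aeval (R := ℝ) (fun x => (monomial (G.mo x) (1 : ℝ) :
      MvPolynomial (Option G.Param) ℝ)) F = 0 := by
  classical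
  refine funext_set (R := ℝ) (fun _ => Set.Ioi (0 : ℝ)) (fun _ => Set.Ioi_infinite 0) ?_
  intro t ht
  have htpos : ∀ k, 0 < t k := fun k => ht k trivial
  rw [map_zero]
  obtain ⟨c, θ, hc, hθ1, hθ2, hθ3⟩ := G.normalise hperf _ (univ.filter fun j => ¬ G.IsSink j) rfl
    (fun j hj => (mem_filter.1 hj).2)
    (fun j _ i hi => mem_filter.2 ⟨mem_univ _, fun hs => G.model.not_mem i hs j hi⟩)
    (fun j u => t (some (G.ix j u)))
    (fun j u u' h => congrArg (fun k => t (some k)) ((G.ix_eq_iff j u u').2 h))
    (fun j u => htpos _)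
  have hθ2' : ∀ j, ¬ G.IsSink j → ∀ u, ∑ a, θ j (Function.update u j a) = 1 :=
    fun j hj => hθ2 j (mem_filter.2 ⟨mem_univ _, hj⟩)
  have hy : 0 < c * t none := mul_pos hc (htpos none)
  set z : ℝ := (c * t none) ^ ((n : ℝ)⁻¹) with hz
  have hzn : z ^ n = c * t none := Real.rpow_inv_natCast_pow hy.le hn
  have key : ∀ u : G.Outcome, G.ev t θ z hθ2' (G.φ (G.β (X u))) = eval t (monomial (G.mo u) 1) := by
    intro u
    have h1 : G.β (X u) = G.yv u := by unfold β; exact aeval_X _ _
    rw [h1, G.ev_yv t θ z hθ2', G.prod_val t θ z hθ1 c hθ3 hzn u]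
    unfold mo
    have h2 : (monomial (Finsupp.single none 1 +
        ∑ j with G.Tok u j, Finsupp.single (some (G.ix j u)) 1) (1 : ℝ) :
        MvPolynomial (Option G.Param) ℝ) = X none * ∏ j with G.Tok u j, X (some (G.ix j u)) := by
      have h3 : (monomial (∑ j with G.Tok u j, Finsupp.single (some (G.ix j u)) 1) (1 : ℝ) :
          MvPolynomial (Option G.Param) ℝ) = ∏ j with G.Tok u j, X (some (G.ix j u)) :=
        monomial_sum_one _ _
      rw [← h3, X, monomial_mul, one_mul]
    rw [h2, map_mul, map_prod, eval_X]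
    simp only [eval_X]
  have h4 : ∀ F : MvPolynomial G.Outcome ℝ, G.ev t θ z hθ2' (G.φ (G.β F)) =
      eval t (aeval (R := ℝ) (fun x => (monomial (G.mo x) (1 : ℝ) :
        MvPolynomial (Option G.Param) ℝ)) F) := by
    intro F
    induction F using MvPolynomial.induction_on with
    | C a =>
      rw [show G.β (C a) = C a from algHom_C _ a,
        show G.φ (C a) = Ideal.Quotient.mk G.J (C a) from algHom_C _ a]
      unfold ev
      rw [Ideal.Quotient.lift_mk, eval_C]
      rw [show aeval (R := ℝ) (fun x => (monomial (G.mo x) (1 : ℝ) :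
        MvPolynomial (Option G.Param) ℝ)) (C a) = C a from algHom_C _ a, eval_C]
    | add p q hp hq => rw [map_add, map_add, map_add, hp, hq, map_add, map_add]
    | mul_X p x hp => rw [map_mul, map_mul, map_mul, hp, key, map_mul, map_mul, aeval_X]
  rw [← h4, hF, map_zero]

/-- `P_G` is contained in the global Markov ideal. -/
theorem P_le (hn : n ≠ 0) (hperf : G.NonSinkPerfect) (hch : G.NoLongInducedCycle) :
    G.P ≤ G.globalIdeal := by
  intro F hF
  obtain ⟨F', rfl⟩ := G.β_surjective F
  exact G.ker_mem hperf hch (G.ker_le hn hperf hF)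

end BNet

end Q49.BN
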