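import Pool.Agent.Q49.BN.Quad

/-!
# Normalisation of clique potentials along a perfect directed acyclic graph
-/

set_option autoImplicit false
set_option linter.unusedSectionVars false

namespace Q49.BN

open Finset

namespace BNet

variable {n : ℕ} (G : BNet n)

open Classical in
/-- the number of ancestors -/
noncomputable def rk (i : Fin n) : ℕ := (univ.filter fun u => Relation.TransGen G.edge u i).card

theorem rk_lt {i j : Fin n} (h : G.edge i j) : G.rk i < G.rk j := by
  classical
  unfold rk
  apply Finset.card_lt_card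
  rw [Finset.ssubset_iff_of_subset]
  · refine ⟨i, ?_, ?_⟩
    · rw [mem_filter]
      exact ⟨mem_univ _, Relation.TransGen.single h⟩
    · rw [mem_filter]
      exact fun h => G.acyclic i h.2
  · intro u hu
    rw [mem_filter] at hu ⊢
    exact ⟨mem_univ _, hu.2.tail h⟩

/-- the last vertex of a clique -/
theorem exists_last {Q : Finset (Fin n)} (hQ : Q.Nonempty)
    (h : ∀ i ∈ Q, ∀ j ∈ Q, i ≠ j → G.skel.Adj i j) :
    ∃ j ∈ Q, Q ⊆ insert j (G.model.Pa j) := by
  obtain ⟨j, hj, hmax⟩ := Finset.exists_max_image Q G.rk hQ
  refine ⟨j, hj, fun i hi => ?_⟩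
  by_cases hij : i = j
  · rw [hij]; exact mem_insert_self _ _
  · refine mem_insert_of_mem (G.mem_Pa.2 ?_)
    rcases h i hi j hj hij with h1 | h1
    · exact h1
    · have := G.rk_lt h1
      have := hmax i hi
      omega

/-- `f` only depends on the coordinates in `Z` -/
def Dep (f : G.Outcome → ℝ) (Z : Finset (Fin n)) : Prop :=
  ∀ u u' : G.Outcome, Agree Z u u' → f u = f u'

theorem normalise (hperf : G.NonSinkPerfect) : ∀ (N : ℕ) (W : Finset (Fin n)), W.card = N →
    (∀ j ∈ W, ¬ G.IsSink j) → (∀ j ∈ W, G.model.Pa j ⊆ W) →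
    ∀ t : Fin n → G.Outcome → ℝ, (∀ j, G.Dep (t j) (insert j (G.model.Pa j))) →
      (∀ j u, 0 < t j u) →
    ∃ (c : ℝ) (θ : Fin n → G.Outcome → ℝ), 0 < c ∧
      (∀ j, G.Dep (θ j) (insert j (G.model.Pa j))) ∧
      (∀ j ∈ W, ∀ u, ∑ a, θ j (Function.update u j a) = 1) ∧
      ∀ u, ∏ j ∈ W, t j u = c * ∏ j ∈ W, θ j u := by
  classical
  intro N
  induction N with
  | zero =>
    intro W hW _ _ t ht _
    rw [card_eq_zero] at hW
    subst hW
    exact ⟨1, t, one_pos, ht, fun j hj => absurd hj (notMem_empty _), fun u => by simp⟩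
  | succ N ih =>
    intro W hW hns hanc t ht htpos
    obtain ⟨w, hwW, hmax⟩ := Finset.exists_max_image W G.rk (card_pos.1 (by omega))
    have hnochild : ∀ j ∈ W, ¬ G.edge w j := by
      intro j hj h1
      have := G.rk_lt h1
      have := hmax j hj
      omega
    set W' := W.erase w with hW'
    have hcard : W'.card = N := by rw [hW', card_erase_of_mem hwW, hW]; rfl
    have hns' : ∀ j ∈ W', ¬ G.IsSink j := fun j hj => hns j (mem_of_mem_erase hj)
    have hanc' : ∀ j ∈ W', G.model.Pa j ⊆ W' := by
      intro j hj i hi
      refine mem_erase.2 ⟨?_, hanc j (mem_of_mem_erase hj) hi⟩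
      rintro rfl
      exact hnochild j (mem_of_mem_erase hj) (G.mem_Pa.1 hi)
    have hwPa : w ∉ G.model.Pa w := G.model.irrefl w
    -- the sum
    set σ : G.Outcome → ℝ := fun u => ∑ a, t w (Function.update u w a) with hσ
    have hσdep : G.Dep σ (G.model.Pa w) := by
      intro u u' h
      rw [hσ]
      beta_reduce
      refine Finset.sum_congr rfl fun a _ => ht w _ _ ?_
      intro i hi
      by_cases hiw : i = w
      · subst hiw
        rw [Function.update_self, Function.update_self]
      · rw [Function.update_of_ne hiw, Function.update_of_ne hiw]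
        exact h i ((mem_insert.1 hi).resolve_left hiw)
    have hσpos : ∀ u, 0 < σ u := by
      intro u
      rw [hσ]
      beta_reduce
      have : Nonempty (Fin (G.κ w)) := ⟨G.o w⟩
      exact Finset.sum_pos (fun a _ => htpos w _) univ_nonempty
    have hσup : ∀ u a, σ (Function.update u w a) = σ u := by
      intro u a
      refine hσdep _ _ fun i hi => ?_
      rw [Function.update_of_ne]
      rintro rfl
      exact hwPa hi
    have hprod : ∀ (f : Fin n → G.Outcome → ℝ) (u : G.Outcome),
        ∏ j ∈ W, f j u = f w u * ∏ j ∈ W', f j u := by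
      intro f u
      rw [hW', mul_prod_erase W (fun j => f j u) hwW]
    -- the family on `W'`
    obtain ⟨t', ht', htpos', c0, hc0, hprod'⟩ : ∃ t' : Fin n → G.Outcome → ℝ,
        (∀ j, G.Dep (t' j) (insert j (G.model.Pa j))) ∧ (∀ j u, 0 < t' j u) ∧
        ∃ c0 : ℝ, 0 < c0 ∧ ∀ u, σ u * ∏ j ∈ W', t j u = c0 * ∏ j ∈ W', t' j u := by
      by_cases hPa : (G.model.Pa w).Nonempty
      · obtain ⟨js, hjs, hsub⟩ := G.exists_last hPa (by
          intro i hi j hj hij
          exact hperf w (hns w hwW) i j (G.mem_Pa.1 hi) (G.mem_Pa.1 hj) hij)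
        have hjsW : js ∈ W' := by
          refine mem_erase.2 ⟨?_, hanc w hwW hjs⟩
          rintro rfl
          exact hwPa hjs
        refine ⟨fun j u => if j = js then t j u * σ u else t j u, ?_, ?_, 1, one_pos, ?_⟩
        · intro j u u' h
          beta_reduce
          split_ifs with h1
          · rw [ht j u u' h, hσdep u u' (h.mono (by rw [h1]; exact hsub))]
          · exact ht j u u' h
        · intro j u
          beta_reduce
          split_ifs with h1
          · exact mul_pos (htpos j u) (hσpos u)
          · exact htpos j u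
        · intro u
          rw [one_mul, ← mul_prod_erase W' (fun j => t j u) hjsW,
            ← mul_prod_erase W' (fun j => if j = js then t j u * σ u else t j u) hjsW]
          rw [if_pos rfl]
          have : ∏ x ∈ W'.erase js, (if x = js then t x u * σ u else t x u) =
              ∏ x ∈ W'.erase js, t x u := by
            refine Finset.prod_congr rfl fun x hx => ?_
            rw [if_neg (ne_of_mem_erase hx)]
          rw [this]
          ring
      · rw [not_nonempty_iff_eq_empty] at hPa
        refine ⟨t, ht, htpos, σ G.o, hσpos _, fun u => ?_⟩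
        rw [hσdep u G.o (by rw [hPa]; exact fun i hi => absurd hi (notMem_empty _))]
    obtain ⟨c, θ, hc, hθ1, hθ2, hθ3⟩ := ih W' hcard hns' hanc' t' ht' htpos'
    refine ⟨c0 * c, fun j u => if j = w then t w u / σ u else θ j u, mul_pos hc0 hc, ?_, ?_, ?_⟩
    · intro j u u' h
      beta_reduce
      split_ifs with h1
      · subst h1
        rw [ht j u u' h, hσdep u u' (h.mono (subset_insert _ _))]
      · exact hθ1 j u u' h
    · intro j hj u
      by_cases h1 : j = w
      · subst h1
        simp only [if_true]
        have h2 : ∀ a, t j (Function.update u j a) / σ (Function.update u j a) =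
            t j (Function.update u j a) / σ u := fun a => by rw [hσup]
        simp only [h2]
        rw [← Finset.sum_div]
        exact div_self (hσpos u).ne'
      · simp only [if_neg h1]
        exact hθ2 j (mem_erase.2 ⟨h1, hj⟩) u
    · intro u
      rw [hprod, hprod (fun j u => if j = w then t w u / σ u else θ j u) u]
      rw [if_pos rfl]
      have h2 : ∏ j ∈ W', (if j = w then t w u / σ u else θ j u) = ∏ j ∈ W', θ j u := by
        refine Finset.prod_congr rfl fun x hx => ?_
        rw [if_neg (ne_of_mem_erase hx)]
      rw [h2]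
      have h3 := hprod' u
      rw [hθ3 u] at h3
      have h4 : ∏ j ∈ W', t j u = c0 * (c * ∏ j ∈ W', θ j u) / σ u := by
        rw [eq_div_iff (hσpos u).ne', mul_comm]
        exact h3
      rw [h4]
      ring

end BNet

end Q49.BN
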