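import Pool.Agent.Q49.TG.Bin
import Pool.Agent.Q49.BN.Norm
import Pool.Agent.H255R3.STC.Chordal

/-!
# `P_G` is contained in the global Markov ideal
-/

set_option autoImplicit false
set_option linter.unusedSectionVars false

namespace Q49.BN

open Finset MvPolynomial

namespace BNet

variable {n : ℕ} (G : BNet n)

/-! ### the new variables generate -/

/-- the homomorphism sending the variable `u` to the sum of the completions of `u` -/
noncomputable def β : MvPolynomial G.Outcome ℝ →ₐ[ℝ] MvPolynomial G.Outcome ℝ :=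
  aeval fun u => G.yv u

open Classical in
/-- the number of sinks with the distinguished state -/
noncomputable def nd (w : G.Outcome) : ℕ := (univ.filter fun i => G.IsSink i ∧ w i = G.o i).card

theorem X_mem_range : ∀ (N : ℕ) (w : G.Outcome), G.nd w = N → (X w : MvPolynomial G.Outcome ℝ) ∈
    G.β.range := by
  classical
  intro N
  induction N using Nat.strong_induction_on with
  | _ N ih =>
    intro w hw
    have h1 : G.yv w = X w + ∑ w' ∈ (univ.filter fun w' => G.Ext w w').erase w, X w' := by
      unfold yv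
      rw [add_sum_erase]
      rw [mem_filter]
      exact ⟨mem_univ _, fun _ _ => rfl⟩
    have h2 : (X w : MvPolynomial G.Outcome ℝ) = G.yv w -
        ∑ w' ∈ (univ.filter fun w' => G.Ext w w').erase w, X w' := by rw [h1]; ring
    rw [h2]
    refine Subalgebra.sub_mem _ ⟨X w, by unfold β; exact aeval_X _ _⟩
      (Subalgebra.sum_mem _ fun w' hw' => ?_)
    rw [mem_erase, mem_filter] at hw'
    refine ih (G.nd w') ?_ w' rfl
    rw [← hw]
    unfold nd
    apply card_lt_card
    rw [ssubset_iff_of_subset]
    · -- some coordinate differs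
      obtain ⟨i, hi⟩ := Function.ne_iff.1 hw'.1
      have h3 : G.IsSink i ∧ w i = G.o i := by
        by_contra h4
        apply hi
        refine hw'.2.2 i ?_
        by_cases h5 : G.IsSink i
        · exact Or.inr fun h6 => h4 ⟨h5, h6⟩
        · exact Or.inl h5
      refine ⟨i, ?_, ?_⟩
      · rw [mem_filter]; exact ⟨mem_univ _, h3⟩
      · rw [mem_filter]
        rintro ⟨-, -, h5⟩
        exact hi (h5.trans h3.2.symm)
    · intro i hi
      rw [mem_filter] at hi ⊢
      refine ⟨mem_univ _, hi.2.1, ?_⟩
      by_contra h3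
      exact h3 ((hw'.2.2 i (Or.inr h3)).symm.trans hi.2.2)

theorem β_surjective (F : MvPolynomial G.Outcome ℝ) : ∃ F', G.β F' = F := by
  have h : G.β.range = ⊤ := by
    rw [eq_top_iff, ← adjoin_range_X, Algebra.adjoin_le_iff]
    rintro _ ⟨w, rfl⟩
    exact G.X_mem_range _ w rfl
  have : F ∈ G.β.range := by rw [h]; exact Algebra.mem_top
  exact this

/-! ### the monomial map -/

/-- the vertex `j` contributes to the monomial of `u` -/
def Tok (u : G.Outcome) (j : Fin n) : Prop := ¬ G.IsSink j ∨ u j ≠ G.o j

/-- the index of the parameter of the vertex `j` in the state `u` -/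
def ix (j : Fin n) (u : G.Outcome) : G.Param := ⟨j, u j, fun i => u i⟩

open Classical in
/-- the exponent of the monomial of `u` -/
noncomputable def mo (u : G.Outcome) : Option G.Param →₀ ℕ :=
  Finsupp.single none 1 + ∑ j with G.Tok u j, Finsupp.single (some (G.ix j u)) 1

theorem ix_eq_iff (j : Fin n) (u c : G.Outcome) :
    G.ix j u = G.ix j c ↔ Agree (insert j (G.model.Pa j)) u c := by
  unfold ix
  constructor
  · intro h i hi
    have h1 := eq_of_heq (Sigma.mk.inj h).2
    rcases mem_insert.1 hi with rfl | hi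
    · exact congrArg Prod.fst h1
    · exact congrFun (congrArg Prod.snd h1) ⟨i, G.mem_Pa.1 hi⟩
  · intro h
    have h1 : u j = c j := h j (mem_insert_self _ _)
    have h2 : (fun i : {i : Fin n // G.edge i j} => u i) =
        fun i : {i : Fin n // G.edge i j} => c i := by
      funext i
      exact h i (mem_insert_of_mem (G.mem_Pa.2 i.2))
    rw [h1, h2]

theorem mo_none (u : G.Outcome) : G.mo u none = 1 := by
  classical
  unfold mo
  rw [Finsupp.add_apply, Finsupp.single_eq_same, Finsupp.finsetSum_apply,
    Finset.sum_eq_zero fun j _ => by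
      rw [Finsupp.single_apply, if_neg]
      exact Option.some_ne_none _, add_zero]

theorem mo_some (u c : G.Outcome) (j : Fin n) (hj : G.Tok c j) :
    G.mo u (some (G.ix j c)) = ind (G.agp (insert j (G.model.Pa j)) c) u := by
  classical
  unfold mo
  rw [Finsupp.add_apply, Finsupp.single_apply, if_neg (Option.some_ne_none _).symm, zero_add,
    Finsupp.finsetSum_apply]
  by_cases h : Agree (insert j (G.model.Pa j)) u c
  · rw [ind_pos (P := G.agp _ c) h, Finset.sum_eq_single j]
    · rw [Finsupp.single_apply, if_pos]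
      rw [(G.ix_eq_iff j u c).2 h]
    · intro k _ hkj
      rw [Finsupp.single_apply, if_neg]
      intro h1
      exact hkj (congrArg Sigma.fst (Option.some_injective _ h1))
    · intro h1
      exfalso
      apply h1
      rw [mem_filter]
      refine ⟨mem_univ _, ?_⟩
      unfold Tok at hj ⊢
      rw [h j (mem_insert_self _ _)]
      exact hj
  · rw [ind_neg (P := G.agp _ c) h]
    refine Finset.sum_eq_zero fun k _ => ?_
    rw [Finsupp.single_apply, if_neg]
    intro h1
    have h2 := Option.some_injective _ h1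
    have h3 : k = j := congrArg Sigma.fst h2
    subst h3
    exact h ((G.ix_eq_iff k u c).1 h2)

/-! ### products of new variables with the same monomial -/

theorem stEq_of_mo {ι : Type} [Fintype ι] {f g : ι → G.Outcome}
    (h : ∑ k, G.mo (f k) = ∑ k, G.mo (g k)) : G.model.StEq univ f g := by
  have htok : ∀ j, ∀ c : G.Outcome, G.Tok c j →
      cnt f (fun r => Agree (insert j (G.model.Pa j)) r c) =
        cnt g (fun r => Agree (insert j (G.model.Pa j)) r c) := by
    intro j c hj
    rw [cnt_eq_sum, cnt_eq_sum]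
    have h1 := DFunLike.congr_fun h (some (G.ix j c))
    rw [Finsupp.finsetSum_apply, Finsupp.finsetSum_apply] at h1
    simp only [G.mo_some _ c j hj] at h1
    exact h1
  rintro P (⟨Q, -, h2, h3, c, rfl⟩ | ⟨s, -, hs2, c, hc, rfl⟩)
  · by_cases hQ : Q.Nonempty
    · obtain ⟨j, hj, hsub⟩ := G.exists_last hQ fun i hi j hj hij => G.model_adj.1 (h3 i hi j hj hij)
      refine cnt_inv G.o f g (insert j (G.model.Pa j)) _ ?_ fun c' _ => htok j c' (Or.inl (h2 j hj))
      intro r r' hr
      exact ⟨fun h1 => (hr.mono hsub).symm.trans h1, fun h1 => (hr.mono hsub).trans h1⟩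
    · rw [not_nonempty_iff_eq_empty] at hQ
      subst hQ
      rw [cnt_eq_sum, cnt_eq_sum]
      refine Finset.sum_congr rfl fun k _ => ?_
      rw [ind_pos (P := fun r : Out G.κ => Agree ∅ r c) (r := f k)
        (fun i hi => absurd hi (notMem_empty _)),
        ind_pos (P := fun r : Out G.κ => Agree ∅ r c) (r := g k)
        (fun i hi => absurd hi (notMem_empty _))]
  · rw [inter_univ]
    exact htok s c (Or.inr hc)

theorem prod_mem_of_conn (hperf : G.NonSinkPerfect) {ι : Type} [Fintype ι] [DecidableEq ι]
    {f g : ι → G.Outcome} (h : Relation.ReflTransGen (G.model.Step univ) f g) :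
    ∏ k, G.yv (f k) - ∏ k, G.yv (g k) ∈ G.globalIdeal := by
  induction h with
  | refl => rw [sub_self]; exact zero_mem _
  | @tail g g' _ h2 ih =>
    have h3 : ∏ k, G.yv (g k) - ∏ k, G.yv (g' k) ∈ G.globalIdeal := by
      cases h2 with
      | ign h =>
        have : g = g' := funext fun k => funext fun i => h k i (mem_univ i)
        rw [this, sub_self]
        exact zero_mem _
      | move k l hkl hoff h =>
        have hsplit : ∀ f : ι → G.Outcome, ∏ m, G.yv (f m) = (G.yv (f k) * G.yv (f l)) *
            ∏ m ∈ (univ.erase k).erase l, G.yv (f m) := by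
          intro f
          rw [← mul_prod_erase univ (fun m => G.yv (f m)) (mem_univ k),
            ← mul_prod_erase (univ.erase k) (fun m => G.yv (f m))
              (mem_erase.2 ⟨Ne.symm hkl, mem_univ l⟩), mul_assoc]
        rw [hsplit g, hsplit g']
        have h4 : ∏ m ∈ (univ.erase k).erase l, G.yv (g' m) =
            ∏ m ∈ (univ.erase k).erase l, G.yv (g m) := by
          refine Finset.prod_congr rfl fun m hm => ?_
          rw [mem_erase, mem_erase] at hm
          rw [hoff m hm.2.1 hm.1]
        rw [h4, ← sub_mul]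
        refine Ideal.mul_mem_right _ _ (G.quad_mem hperf fun P hP => ?_)
        exact (cnt_pair hkl hoff P).1 (h P hP)
    have h4 := Ideal.add_mem _ ih h3
    rwa [sub_add_sub_cancel] at h4

/-- chordality gives simplicial vertices -/
theorem exists_simp (hch : G.NoLongInducedCycle) (W : Finset (Fin n)) (hW : W.Nonempty) :
    ∃ w, G.model.Simp W w := by
  by_cases h : ∃ v ∈ W, ∃ w ∈ W, w ≠ v ∧ ¬ G.skel.Adj v w
  · obtain ⟨v, hv, w, hw, hwv, hvw⟩ := h
    obtain ⟨z, hz, -, -, hz2⟩ := Pool.Agent.H255R3.STC.exists_simplicial (G := G.skel)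
      (fun k hk => hch k hk) W.card W le_rfl v hv w hw hwv hvw
    refine ⟨z, hz, fun a ha b hb h1 h2 h3 => ?_⟩
    rw [G.model_adj] at h1 h2 ⊢
    exact hz2 a ha b hb h1 h2 h3
  · push Not at h
    obtain ⟨w, hw⟩ := hW
    refine ⟨w, hw, fun a ha b hb _ _ h3 => ?_⟩
    rw [G.model_adj]
    exact h a ha b hb (Ne.symm h3)

theorem prod_mem_of_mo (hperf : G.NonSinkPerfect) (hch : G.NoLongInducedCycle) {ι : Type}
    [Fintype ι] [DecidableEq ι] {f g : ι → G.Outcome}
    (h : ∑ k, G.mo (f k) = ∑ k, G.mo (g k)) :
    ∏ k, G.yv (f k) - ∏ k, G.yv (g k) ∈ G.globalIdeal :=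
  G.prod_mem_of_conn hperf (G.model.conn_of_stEq (G.exists_simp hch) _ univ rfl f g
    (G.stEq_of_mo h))

/-! ### monomials -/

/-- the exponent of a monomial under the monomial map -/
noncomputable def mexp (u : G.Outcome →₀ ℕ) : Option G.Param →₀ ℕ := u.sum fun x k => k • G.mo x

theorem mon_image (u : G.Outcome →₀ ℕ) : aeval (R := ℝ) (fun x => (monomial (G.mo x) (1 : ℝ) :
    MvPolynomial (Option G.Param) ℝ)) (monomial u (1 : ℝ)) = monomial (G.mexp u) 1 := by
  rw [aeval_monomial, map_one, one_mul]
  unfold Finsupp.prod mexp Finsupp.sum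
  rw [monomial_sum_one]
  refine Finset.prod_congr rfl fun x _ => ?_
  beta_reduce
  rw [monomial_pow, one_pow]

/-- a monomial as a product over a family -/
theorem exists_family (u : G.Outcome →₀ ℕ) (d : ℕ) (hd : G.mexp u none = d) :
    ∃ f : Fin d → G.Outcome, G.mexp u = ∑ k, G.mo (f k) ∧
      G.β (monomial u 1) = ∏ k, G.yv (f k) := by
  classical
  induction u using Finsupp.induction generalizing d with
  | zero =>
    have : d = 0 := by
      rw [← hd]
      unfold mexp
      rw [Finsupp.sum_zero_index]
      rfl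
    subst this
    refine ⟨fun k => k.elim0, ?_, ?_⟩
    · unfold mexp
      rw [Finsupp.sum_zero_index]
      rfl
    · rw [show (monomial (0 : G.Outcome →₀ ℕ) (1 : ℝ)) = 1 from rfl, map_one]
      rfl
  | single_add x m u hx hm ih =>
    have hadd : G.mexp (Finsupp.single x m + u) = m • G.mo x + G.mexp u := by
      unfold mexp
      rw [Finsupp.sum_add_index' (by simp) (by intros; rw [add_smul]),
        Finsupp.sum_single_index (by simp)]
    obtain ⟨f, hf1, hf2⟩ := ih (G.mexp u none) rfl
    have hd' : d = m + G.mexp u none := by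
      rw [← hd, hadd, Finsupp.add_apply, Finsupp.smul_apply, mo_none, smul_eq_mul, mul_one]
    subst hd'
    refine ⟨Fin.append (fun _ => x) f, ?_, ?_⟩
    · rw [hadd, Fin.sum_univ_add]
      simp only [Fin.append_left, Fin.append_right]
      rw [← hf1, Finset.sum_const, Finset.card_univ, Fintype.card_fin]
    · rw [Fin.prod_univ_add]
      simp only [Fin.append_left, Fin.append_right]
      rw [← hf2, Finset.prod_const, Finset.card_univ, Fintype.card_fin]
      have : (monomial (Finsupp.single x m + u) (1 : ℝ) : MvPolynomial G.Outcome ℝ) =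
          X x ^ m * monomial u 1 := by
        rw [X_pow_eq_monomial, monomial_mul, one_mul]
      rw [this, map_mul, map_pow]
      congr 2
      unfold β
      exact aeval_X _ _

theorem binomial_mem (hperf : G.NonSinkPerfect) (hch : G.NoLongInducedCycle)
    {u v : G.Outcome →₀ ℕ} (h : G.mexp u = G.mexp v) :
    G.β (monomial u 1) - G.β (monomial v 1) ∈ G.globalIdeal := by
  obtain ⟨f, hf1, hf2⟩ := G.exists_family u (G.mexp u none) rfl
  obtain ⟨g, hg1, hg2⟩ := G.exists_family v (G.mexp u none) (by rw [h])
  rw [hf2, hg2]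
  exact G.prod_mem_of_mo hperf hch (by rw [← hf1, ← hg1, h])

/-- the kernel of the monomial map is sent to the global Markov ideal -/
theorem ker_mem (hperf : G.NonSinkPerfect) (hch : G.NoLongInducedCycle)
    {F : MvPolynomial G.Outcome ℝ}
    (hF : aeval (R := ℝ) (fun x => (monomial (G.mo x) (1 : ℝ) :
      MvPolynomial (Option G.Param) ℝ)) F = 0) : G.β F ∈ G.globalIdeal := by
  have h1 := Q49.TG.mem_span_of_ker (m := G.mo) (c := fun _ => (1 : ℝ)) F hF
  change F ∈ G.globalIdeal.comap G.β
  refine (Ideal.span_le.2 ?_ : Ideal.span _ ≤ G.globalIdeal.comap G.β) h1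
  · rintro g ⟨hg, ⟨u, rfl⟩ | ⟨u, v, -, a, ha, hrel, rfl⟩⟩
    · exfalso
      rw [mon_image] at hg
      exact one_ne_zero (α := ℝ) (monomial_eq_zero.1 hg)
    · rw [mon_image, mon_image, C_mul_monomial, mul_one] at hrel
      rcases (monomial_eq_monomial_iff _ _ _ _).1 hrel with ⟨h3, h4⟩ | ⟨h3, -⟩
      · rw [SetLike.mem_coe, Ideal.mem_comap, map_sub, ← h4]
        exact G.binomial_mem hperf hch h3
      · exact absurd h3 one_ne_zero

end BNet

end Q49.BN
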