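import Pool.Agent.Q49.BN.Conn
import Pool.Agent.Q49.BN.Def

/-!
# Quadratic moves are in the global Markov ideal
-/

set_option autoImplicit false
set_option linter.unusedSectionVars false

namespace Q49.BN

open Finset

namespace BNet

variable {n : ℕ} (G : BNet n)

/-- the distinguished states -/
def o : G.Outcome := fun i => ⟨0, by have := G.two_le i; omega⟩

open Classical in
/-- the combinatorial data -/
noncomputable def model : Model (Fin n) G.κ where
  o := G.o
  Pa j := univ.filter fun i => G.edge i j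
  sink := G.IsSink
  not_mem _ hs j h := hs j (mem_filter.1 h).2
  irrefl i h := G.acyclic i (Relation.TransGen.single (mem_filter.1 h).2)

theorem mem_Pa {i j : Fin n} : i ∈ G.model.Pa j ↔ G.edge i j := by
  classical
  unfold model
  simp only [mem_filter, mem_univ, true_and]

theorem model_adj {i j : Fin n} : G.model.Adj i j ↔ G.skel.Adj i j := by
  unfold Model.Adj
  rw [mem_Pa, mem_Pa]
  rfl

theorem not_edge_of_edge {i j : Fin n} (h : G.edge i j) : ¬ G.edge j i :=
  fun h' => G.acyclic i ((Relation.TransGen.single h).tail h')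

/-- `w` is a completion of `u`: it agrees with `u` except at the sinks where `u` has the
distinguished state -/
def Ext (u w : G.Outcome) : Prop := ∀ i, (¬ G.IsSink i ∨ u i ≠ G.o i) → w i = u i

open Classical in
/-- the sum of `x_w` over the completions `w` of `u` -/
noncomputable def yv (u : G.Outcome) : MvPolynomial G.Outcome ℝ :=
  ∑ w : G.Outcome with G.Ext u w, MvPolynomial.X w

/-! ### pairs of rows with the same statistics -/

/-- agreement with `c` on `Z` -/
def agp (Z : Finset (Fin n)) (c : G.Outcome) : Out G.κ → Prop := fun r => Agree Z r c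

/-- the statistics of two pairs of rows agree -/
def PairEq (r1 r2 r1' r2' : G.Outcome) : Prop :=
  ∀ P ∈ G.model.Fam univ, ind P r1 + ind P r2 = ind P r1' + ind P r2'

section pair

variable {G} {r1 r2 r1' r2' : G.Outcome} (h : G.PairEq r1 r2 r1' r2')

theorem two_of_ind {Z : Finset (Fin n)}
    (h : ∀ c, ind (G.agp Z c) r1 + ind (G.agp Z c) r2 =
      ind (G.agp Z c) r1' + ind (G.agp Z c) r2') :
    (Agree Z r1 r1' ∧ Agree Z r2 r2') ∨ (Agree Z r1 r2' ∧ Agree Z r2 r1') := by
  have hrefl : ∀ r : G.Outcome, Agree Z r r := fun r _ _ => rfl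
  have h1 := h r1
  rw [ind_pos (P := G.agp Z r1) (hrefl r1)] at h1
  have h2 := h r2
  rw [ind_pos (P := G.agp Z r2) (hrefl r2)] at h2
  by_cases h3 : Agree Z r1 r1'
  · left
    refine ⟨h3, ?_⟩
    have h4 : ind (G.agp Z r2) r1 =
        ind (G.agp Z r2) r1' :=
      ind_congr ⟨fun h => h3.symm.trans h, fun h => h3.trans h⟩
    rw [h4] at h2
    have h5 : Agree Z r2' r2 := ind_ne (P := G.agp Z r2) (by omega)
    exact h5.symm
  · right
    rw [ind_neg (P := G.agp Z r1) (r := r1') (fun h => h3 h.symm)] at h1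
    have h5 : Agree Z r2' r1 := ind_ne (P := G.agp Z r1) (by omega)
    refine ⟨h5.symm, ?_⟩
    have h4 : ind (G.agp Z r2) r1 =
        ind (G.agp Z r2) r2' :=
      ind_congr ⟨fun h => h5.trans h, fun h => h5.symm.trans h⟩
    rw [h4] at h2
    have h6 : Agree Z r1' r2 := ind_ne (P := G.agp Z r2) (by omega)
    exact h6.symm

include h

theorem pair_clique {Q : Finset (Fin n)} (h1 : ∀ i ∈ Q, ¬ G.IsSink i)
    (h2 : ∀ i ∈ Q, ∀ j ∈ Q, i ≠ j → G.skel.Adj i j) :
    (Agree Q r1 r1' ∧ Agree Q r2 r2') ∨ (Agree Q r1 r2' ∧ Agree Q r2 r1') :=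
  two_of_ind fun c => h _ (G.model.fam_clique (subset_univ _) h1
    (fun i hi j hj hij => G.model_adj.2 (h2 i hi j hj hij)) c)

theorem pair_vertex {i : Fin n} (h1 : ¬ G.IsSink i) :
    (r1 i = r1' i ∧ r2 i = r2' i) ∨ (r1 i = r2' i ∧ r2 i = r1' i) := by
  have h2 := pair_clique h (Q := {i}) (by simpa using h1) (by
    intro a ha b hb hab
    rw [mem_singleton] at ha hb
    exact absurd (ha.trans hb.symm) hab)
  rcases h2 with ⟨h3, h4⟩ | ⟨h3, h4⟩
  · exact Or.inl ⟨h3 i (mem_singleton_self i), h4 i (mem_singleton_self i)⟩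
  · exact Or.inr ⟨h3 i (mem_singleton_self i), h4 i (mem_singleton_self i)⟩

theorem pair_sink_ind {s : Fin n} (hs : G.IsSink s) {c : G.Outcome} (hc : c s ≠ G.o s) :
    ind (G.agp (insert s (G.model.Pa s)) c) r1 +
      ind (G.agp (insert s (G.model.Pa s)) c) r2 =
    ind (G.agp (insert s (G.model.Pa s)) c) r1' +
      ind (G.agp (insert s (G.model.Pa s)) c) r2' := by
  have h1 := h _ (G.model.fam_sink (mem_univ s) hs (c := c) hc)
  rw [inter_univ] at h1
  exact h1

/-- at an inactive sink all rows have the distinguished state -/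
theorem pair_inactive {s : Fin n} (hs : G.IsSink s) (h1 : r1 s = G.o s) (h2 : r2 s = G.o s) :
    r1' s = G.o s ∧ r2' s = G.o s := by
  constructor
  · by_contra h3
    have h4 := pair_sink_ind h hs h3
    rw [ind_neg (r := r1) (fun h => h3 (by rw [← h s (mem_insert_self _ _)]; exact h1)),
      ind_neg (r := r2) (fun h => h3 (by rw [← h s (mem_insert_self _ _)]; exact h2)),
      ind_pos (r := r1') (P := G.agp (insert s (G.model.Pa s)) r1')
        (fun _ _ => rfl)] at h4
    omega
  · by_contra h3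
    have h4 := pair_sink_ind h hs h3
    rw [ind_neg (r := r1) (fun h => h3 (by rw [← h s (mem_insert_self _ _)]; exact h1)),
      ind_neg (r := r2) (fun h => h3 (by rw [← h s (mem_insert_self _ _)]; exact h2)),
      ind_pos (r := r2') (P := G.agp (insert s (G.model.Pa s)) r2')
        (fun _ _ => rfl)] at h4
    omega

/-- one half of the statement for active sinks -/
theorem pair_active_aux {s : Fin n} (hs : G.IsSink s) (h1 : r1 s ≠ G.o s) :
    (Agree (insert s (G.model.Pa s)) r1 r1' ∧ Agree (insert s (G.model.Pa s)) r2 r2') ∨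
      (Agree (insert s (G.model.Pa s)) r1 r2' ∧ Agree (insert s (G.model.Pa s)) r2 r1') := by
  set Z := insert s (G.model.Pa s) with hZ
  have hrefl : ∀ r : G.Outcome, Agree Z r r := fun r _ _ => rfl
  have hpi : ∀ c : G.Outcome, c s ≠ G.o s → ind (G.agp Z c) r1 + ind (G.agp Z c) r2 =
      ind (G.agp Z c) r1' + ind (G.agp Z c) r2' := fun c hc => pair_sink_ind h hs hc
  have hpa : ∀ i ∈ G.model.Pa s, ¬ G.IsSink i := fun i hi hsi => G.model.not_mem i hsi s hi
  have h3 := hpi r1 h1
  rw [ind_pos (P := G.agp Z r1) (hrefl r1)] at h3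
  by_cases h4 : Agree Z r1 r1'
  · left
    refine ⟨h4, ?_⟩
    rw [hZ, Model.agree_insert]
    constructor
    · by_contra hne
      -- some row would be missing
      have h6 : ∀ c : G.Outcome, ind (G.agp Z c) r1 =
          ind (G.agp Z c) r1' := fun c =>
        ind_congr ⟨fun h => h4.symm.trans h, fun h => h4.trans h⟩
      by_cases h7 : r2 s = G.o s
      · have h8 : r2' s ≠ G.o s := fun h => hne (h7.trans h.symm)
        have h9 := hpi _ h8
        rw [h6, ind_pos (P := G.agp Z r2') (hrefl r2'),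
          ind_neg (r := r2) (fun h => hne (h s (mem_insert_self _ _)))] at h9
        omega
      · have h9 := hpi _ h7
        rw [h6, ind_pos (P := G.agp Z r2) (hrefl r2),
          ind_neg (r := r2') (fun h => hne (h s (mem_insert_self _ _)).symm)] at h9
        omega
    · intro i hi
      have h5 := h4 i (mem_insert_of_mem hi)
      rcases pair_vertex h (hpa i hi) with h6 | h6
      · exact h6.2
      · rw [h6.2, ← h5, h6.1]
  · right
    have h5 : Agree Z r1 r2' := by
      rw [ind_neg (P := G.agp Z r1) (r := r1') (fun h => h4 h.symm)] at h3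
      exact (ind_ne (P := G.agp Z r1) (r := r2') (by omega)).symm
    refine ⟨h5, ?_⟩
    rw [hZ, Model.agree_insert]
    constructor
    · by_contra hne
      have h6 : ∀ c : G.Outcome, ind (G.agp Z c) r1 =
          ind (G.agp Z c) r2' := fun c =>
        ind_congr ⟨fun h => h5.symm.trans h, fun h => h5.trans h⟩
      by_cases h7 : r2 s = G.o s
      · have h8 : r1' s ≠ G.o s := fun h => hne (h7.trans h.symm)
        have h9 := hpi _ h8
        rw [h6, ind_pos (P := G.agp Z r1') (hrefl r1'),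
          ind_neg (r := r2) (fun h => hne (h s (mem_insert_self _ _)))] at h9
        omega
      · have h9 := hpi _ h7
        rw [h6, ind_pos (P := G.agp Z r2) (hrefl r2),
          ind_neg (r := r1') (fun h => hne (h s (mem_insert_self _ _)).symm)] at h9
        omega
    · intro i hi
      have h5' := h5 i (mem_insert_of_mem hi)
      rcases pair_vertex h (hpa i hi) with h6 | h6
      · rw [h6.2, ← h5', h6.1]
      · exact h6.2

omit h in
theorem PairEq.swap (h : G.PairEq r1 r2 r1' r2') : G.PairEq r2 r1 r2' r1' := by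
  intro P hP
  rw [add_comm, h P hP, add_comm]

theorem pair_active {s : Fin n} (hs : G.IsSink s) (h1 : r1 s ≠ G.o s ∨ r2 s ≠ G.o s) :
    (Agree (insert s (G.model.Pa s)) r1 r1' ∧ Agree (insert s (G.model.Pa s)) r2 r2') ∨
      (Agree (insert s (G.model.Pa s)) r1 r2' ∧ Agree (insert s (G.model.Pa s)) r2 r1') := by
  rcases h1 with h1 | h1
  · exact pair_active_aux h hs h1
  · rcases pair_active_aux (PairEq.swap h) hs h1 with ⟨h2, h3⟩ | ⟨h2, h3⟩
    · exact Or.inl ⟨h3, h2⟩
    · exact Or.inr ⟨h3, h2⟩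

end pair

/-! ### d-separation -/

/-- The criterion for d-separation used below. -/
theorem dsep_of {A B C : Finset (Fin n)} (hperf : G.NonSinkPerfect) (hAB : Disjoint A B)
    (hC : ∀ i ∈ C, ¬ G.IsSink i) (hcov : ∀ i, ¬ G.IsSink i → i ∈ A ∨ i ∈ B ∨ i ∈ C)
    (h1 : ∀ i ∈ A, ∀ j ∈ B, ¬ G.skel.Adj i j) : G.DSep A B C := by
  intro a ha b hb p _
  by_contra hcon
  push Not at hcon
  set v := p.getVert with hv
  set m := p.length with hm
  have hab : a ≠ b := fun h => Finset.disjoint_left.1 hAB ha (h ▸ hb)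
  have hm0 : 0 < m := by
    rw [hm]
    by_contra h0
    exact hab (SimpleGraph.Walk.eq_of_length_eq_zero (p := p) (by omega))
  have hadj : ∀ l, l < m → G.edge (v l) (v (l + 1)) ∨ G.edge (v (l + 1)) (v l) :=
    fun l hl => p.adj_getVert_succ hl
  have hnc : ∀ l, 0 < l → l < m → v l ∈ C → G.edge (v (l - 1)) (v l) ∧ G.edge (v (l + 1)) (v l) :=
    fun l h2 h3 h4 => (hcon l h2 h3).1 h4
  have hcol : ∀ l, 0 < l → l < m → G.edge (v (l - 1)) (v l) ∧ G.edge (v (l + 1)) (v l) →
      ∃ d, Relation.ReflTransGen G.edge (v l) d ∧ d ∈ C := fun l h2 h3 h4 => (hcon l h2 h3).2 h4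
  have hns : ∀ {i j}, G.edge i j → ¬ G.IsSink i := fun h hs => hs _ h
  -- a non-sink outside of `C` that is adjacent or equal to an element of `A` is in `A`
  have hin : ∀ w, ¬ G.IsSink w → w ∉ C → (∃ x ∈ A, x = w ∨ G.skel.Adj x w) → w ∈ A := by
    rintro w hw hwC ⟨x, hx, hxw⟩
    rcases hcov w hw with h | h | h
    · exact h
    · exfalso
      rcases hxw with rfl | hxw
      · exact Finset.disjoint_left.1 hAB hx h
      · exact h1 x hx w h hxw
    · exact absurd h hwC
  have hout : ∀ w ∈ B, ¬ ∃ x ∈ A, x = w ∨ G.skel.Adj x w := by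
    rintro w hw ⟨x, hx, rfl | hxw⟩
    · exact Finset.disjoint_left.1 hAB hx hw
    · exact h1 x hx w hw hxw
  -- the step
  have hstep : ∀ l, l < m → (v l ∈ A ∨ (0 < l ∧ v (l - 1) ∈ A ∧ G.edge (v (l - 1)) (v l))) →
      (∃ x ∈ A, x = v (l + 1) ∨ G.skel.Adj x (v (l + 1))) ∧
        (G.edge (v l) (v (l + 1)) → v l ∈ A) := by
    intro l hl hinv
    rcases hinv with hA | ⟨hl0, hA, hE⟩
    · exact ⟨⟨v l, hA, Or.inr (hadj l hl)⟩, fun _ => hA⟩
    · rcases hadj l hl with hf | hb'
      · have h2 : v l ∉ C := fun h => G.not_edge_of_edge hf (hnc l hl0 hl h).2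
        have h3 : v l ∈ A := hin _ (hns hf) h2 ⟨_, hA, Or.inr (Or.inl hE)⟩
        exact ⟨⟨v l, h3, Or.inr (Or.inl hf)⟩, fun _ => h3⟩
      · refine ⟨?_, fun h => absurd hb' (G.not_edge_of_edge h)⟩
        have h2 : ¬ G.IsSink (v l) := by
          intro hs
          obtain ⟨d, hd, hdC⟩ := hcol l hl0 hl ⟨hE, hb'⟩
          rcases Relation.ReflTransGen.cases_head hd with h3 | ⟨e, he, -⟩
          · rw [← h3] at hdC
            exact hC _ hdC hs
          · exact hs _ he
        by_cases h3 : v (l - 1) = v (l + 1)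
        · exact ⟨_, hA, Or.inl h3⟩
        · exact ⟨_, hA, Or.inr (hperf _ h2 _ _ hE hb' h3)⟩
  have hinv : ∀ l, l < m → (v l ∈ A ∨ (0 < l ∧ v (l - 1) ∈ A ∧ G.edge (v (l - 1)) (v l))) := by
    intro l
    induction l with
    | zero =>
      intro _
      left
      have : v 0 = a := by rw [hv]; exact p.getVert_zero
      rw [this]
      exact ha
    | succ l ih =>
      intro hl
      obtain ⟨h2, h3⟩ := hstep l (by omega) (ih (by omega))
      rcases hadj l (by omega) with hf | hb'
      · exact Or.inr ⟨by omega, h3 hf, hf⟩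
      · left
        refine hin _ (hns hb') ?_ h2
        intro h4
        exact G.not_edge_of_edge hb' (hnc (l + 1) (by omega) hl h4).1
  obtain ⟨h2, -⟩ := hstep (m - 1) (by omega) (hinv (m - 1) (by omega))
  have h3 : v (m - 1 + 1) = b := by
    rw [show m - 1 + 1 = m by omega, hv, hm]
    exact p.getVert_length
  rw [h3] at h2
  exact hout b hb h2

/-! ### the minors -/

/-- the coordinates outside of `W` are set to the distinguished states -/
def nfW (W : Finset (Fin n)) (w : G.Outcome) : G.Outcome := fun i => if i ∈ W then w i else G.o i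

open Classical in
theorem yv_eq (W : Finset (Fin n)) (r : G.Outcome) (hW : ∀ i, i ∉ W → G.IsSink i ∧ r i = G.o i) :
    G.yv r = ∑ w : G.Outcome with (G.Ext r w ∧ ∀ i, i ∉ W → w i = G.o i), G.marg W w := by
  unfold yv marg
  rw [← Finset.sum_fiberwise_of_maps_to (s := univ.filter fun w => G.Ext r w)
    (t := univ.filter fun w => G.Ext r w ∧ ∀ i, i ∉ W → w i = G.o i) (g := G.nfW W)]
  · refine Finset.sum_congr rfl fun w hw => ?_
    rw [mem_filter] at hw
    refine Finset.sum_congr ?_ fun _ _ => rfl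
    ext w'
    simp only [mem_filter, mem_univ, true_and]
    constructor
    · rintro ⟨-, h2⟩ i hi
      rw [← h2]
      unfold nfW
      rw [if_pos hi]
    · intro h2
      refine ⟨fun i hi => ?_, ?_⟩
      · by_cases hiW : i ∈ W
        · rw [h2 i hiW]
          exact hw.2.1 i hi
        · exfalso
          rcases hi with hi | hi
          · exact hi (hW i hiW).1
          · exact hi (hW i hiW).2
      · funext i
        unfold nfW
        split_ifs with hiW
        · exact h2 i hiW
        · exact (hw.2.2 i hiW).symm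
  · intro w hw
    rw [mem_filter] at hw ⊢
    refine ⟨mem_univ _, fun i hi => ?_, fun i hi => ?_⟩
    · unfold nfW
      split_ifs with hiW
      · exact hw.2 i hi
      · exfalso
        rcases hi with hi | hi
        · exact hi (hW i hiW).1
        · exact hi (hW i hiW).2
    · unfold nfW
      rw [if_neg hi]

/-- the moves of an independence statement -/
theorem yv_mix_mem {A B C : Finset (Fin n)} (hA : A.Nonempty) (hB : B.Nonempty)
    (h1 : Disjoint A B) (h2 : Disjoint A C) (h3 : Disjoint B C) (hsep : G.DSep A B C)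
    {r1 r2 : G.Outcome}
    (hW : ∀ i, i ∉ A ∪ B ∪ C → G.IsSink i ∧ r1 i = G.o i ∧ r2 i = G.o i)
    (hC : ∀ i ∈ C, ¬ G.IsSink i ∧ r1 i = r2 i) :
    G.yv r1 * G.yv r2 - G.yv (G.mix A r2 r1) * G.yv (G.mix A r1 r2) ∈ G.globalIdeal := by
  classical
  set W := A ∪ B ∪ C with hWdef
  have hAW : ∀ i, i ∉ W → i ∉ A := fun i hi h => hi (by
    rw [hWdef]; exact mem_union_left _ (mem_union_left _ h))
  have hm1 : ∀ i, i ∉ W → G.IsSink i ∧ G.mix A r2 r1 i = G.o i := by
    intro i hi
    refine ⟨(hW i hi).1, ?_⟩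
    unfold mix
    rw [if_neg (hAW i hi)]
    exact (hW i hi).2.1
  have hm2 : ∀ i, i ∉ W → G.IsSink i ∧ G.mix A r1 r2 i = G.o i := by
    intro i hi
    refine ⟨(hW i hi).1, ?_⟩
    unfold mix
    rw [if_neg (hAW i hi)]
    exact (hW i hi).2.2
  rw [G.yv_eq W r1 fun i hi => ⟨(hW i hi).1, (hW i hi).2.1⟩,
    G.yv_eq W r2 fun i hi => ⟨(hW i hi).1, (hW i hi).2.2⟩, G.yv_eq W _ hm1, G.yv_eq W _ hm2,
    Finset.sum_mul_sum, Finset.sum_mul_sum, ← Finset.sum_product', ← Finset.sum_product']
  -- the swap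
  have hmix : ∀ (w1 w2 : G.Outcome), G.mix A (G.mix A w1 w2) (G.mix A w2 w1) = w1 := by
    intro w1 w2
    funext i
    unfold mix
    split_ifs <;> rfl
  have hmem : ∀ {s1 s2 w1 w2 : G.Outcome}, (G.Ext s1 w1 ∧ ∀ i, i ∉ W → w1 i = G.o i) →
      (G.Ext s2 w2 ∧ ∀ i, i ∉ W → w2 i = G.o i) →
      (G.Ext (G.mix A s2 s1) (G.mix A w2 w1) ∧ ∀ i, i ∉ W → G.mix A w2 w1 i = G.o i) := by
    intro s1 s2 w1 w2 hw1 hw2
    refine ⟨fun i hi => ?_, fun i hi => ?_⟩
    · unfold mix at hi ⊢
      by_cases hiA : i ∈ A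
      · rw [if_pos hiA] at hi
        rw [if_pos hiA, if_pos hiA]
        exact hw2.1 i hi
      · rw [if_neg hiA] at hi
        rw [if_neg hiA, if_neg hiA]
        exact hw1.1 i hi
    · unfold mix
      rw [if_neg (hAW i hi)]
      exact hw1.2 i hi
  have hbij : ∑ p ∈ (univ.filter fun w => G.Ext (G.mix A r2 r1) w ∧ ∀ i, i ∉ W → w i = G.o i) ×ˢ
        (univ.filter fun w => G.Ext (G.mix A r1 r2) w ∧ ∀ i, i ∉ W → w i = G.o i),
        G.marg W p.1 * G.marg W p.2 =
      ∑ p ∈ (univ.filter fun w => G.Ext r1 w ∧ ∀ i, i ∉ W → w i = G.o i) ×ˢ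
        (univ.filter fun w => G.Ext r2 w ∧ ∀ i, i ∉ W → w i = G.o i),
        G.marg W (G.mix A p.2 p.1) * G.marg W (G.mix A p.1 p.2) := by
    refine Finset.sum_nbij' (fun p => (G.mix A p.2 p.1, G.mix A p.1 p.2))
      (fun p => (G.mix A p.2 p.1, G.mix A p.1 p.2)) ?_ ?_ ?_ ?_ ?_
    · rintro ⟨w1, w2⟩ hw
      rw [mem_product, mem_filter, mem_filter] at hw ⊢
      have e1 := hmem hw.1.2 hw.2.2
      have e2 := hmem hw.2.2 hw.1.2
      rw [hmix] at e1 e2
      exact ⟨⟨mem_univ _, e1⟩, ⟨mem_univ _, e2⟩⟩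
    · rintro ⟨w1, w2⟩ hw
      rw [mem_product, mem_filter, mem_filter] at hw ⊢
      exact ⟨⟨mem_univ _, hmem hw.1.2 hw.2.2⟩, ⟨mem_univ _, hmem hw.2.2 hw.1.2⟩⟩
    · rintro ⟨w1, w2⟩ _
      exact Prod.ext (hmix _ _) (hmix _ _)
    · rintro ⟨w1, w2⟩ _
      exact Prod.ext (hmix _ _) (hmix _ _)
    · rintro ⟨w1, w2⟩ _
      change G.marg W w1 * G.marg W w2 = G.marg W (G.mix A (G.mix A w1 w2) (G.mix A w2 w1)) *
        G.marg W (G.mix A (G.mix A w2 w1) (G.mix A w1 w2))
      rw [hmix, hmix]
  rw [hbij, ← Finset.sum_sub_distrib]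
  refine Ideal.sum_mem _ fun p hp => ?_
  rw [mem_product, mem_filter, mem_filter] at hp
  refine Ideal.subset_span ⟨A, B, C, hA, hB, h1, h2, h3, hsep, p.1, p.2, fun i hi => ?_, rfl⟩
  rw [hp.1.2.1 i (Or.inl (hC i hi).1), hp.2.2.1 i (Or.inl (hC i hi).1)]
  exact (hC i hi).2

/-- quadratic binomials with the same statistics are in the global Markov ideal -/
theorem quad_mem (hperf : G.NonSinkPerfect) {r1 r2 r1' r2' : G.Outcome}
    (h : G.PairEq r1 r2 r1' r2') :
    G.yv r1 * G.yv r2 - G.yv r1' * G.yv r2' ∈ G.globalIdeal := by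
  classical
  set A : Finset (Fin n) := univ.filter fun i =>
    (¬ G.IsSink i ∧ r1 i ≠ r2 i ∧ r1' i = r2 i) ∨
    (G.IsSink i ∧ (r1 i ≠ G.o i ∨ r2 i ≠ G.o i) ∧
      ¬ (Agree (insert i (G.model.Pa i)) r1 r1' ∧ Agree (insert i (G.model.Pa i)) r2 r2')) with hA
  set B : Finset (Fin n) := univ.filter fun i =>
    (¬ G.IsSink i ∧ r1 i ≠ r2 i ∧ r1' i ≠ r2 i) ∨
    (G.IsSink i ∧ (r1 i ≠ G.o i ∨ r2 i ≠ G.o i) ∧
      (Agree (insert i (G.model.Pa i)) r1 r1' ∧ Agree (insert i (G.model.Pa i)) r2 r2')) with hB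
  set C : Finset (Fin n) := univ.filter fun i => ¬ G.IsSink i ∧ r1 i = r2 i with hC
  have mA : ∀ i, i ∈ A ↔ (¬ G.IsSink i ∧ r1 i ≠ r2 i ∧ r1' i = r2 i) ∨
    (G.IsSink i ∧ (r1 i ≠ G.o i ∨ r2 i ≠ G.o i) ∧
      ¬ (Agree (insert i (G.model.Pa i)) r1 r1' ∧ Agree (insert i (G.model.Pa i)) r2 r2')) := by
    intro i; rw [hA, mem_filter]; exact ⟨fun h => h.2, fun h => ⟨mem_univ _, h⟩⟩
  have mB : ∀ i, i ∈ B ↔ (¬ G.IsSink i ∧ r1 i ≠ r2 i ∧ r1' i ≠ r2 i) ∨
    (G.IsSink i ∧ (r1 i ≠ G.o i ∨ r2 i ≠ G.o i) ∧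
      (Agree (insert i (G.model.Pa i)) r1 r1' ∧ Agree (insert i (G.model.Pa i)) r2 r2')) := by
    intro i; rw [hB, mem_filter]; exact ⟨fun h => h.2, fun h => ⟨mem_univ _, h⟩⟩
  have mC : ∀ i, i ∈ C ↔ ¬ G.IsSink i ∧ r1 i = r2 i := by
    intro i; rw [hC, mem_filter]; exact ⟨fun h => h.2, fun h => ⟨mem_univ _, h⟩⟩
  have dAB : Disjoint A B := by
    rw [Finset.disjoint_left]
    intro i hi hi'
    rcases (mA i).1 hi with ⟨a1, a2, a3⟩ | ⟨a1, a2, a3⟩
    · rcases (mB i).1 hi' with ⟨b1, b2, b3⟩ | ⟨b1, b2, b3⟩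
      · exact b3 a3
      · exact a1 b1
    · rcases (mB i).1 hi' with ⟨b1, b2, b3⟩ | ⟨b1, b2, b3⟩
      · exact b1 a1
      · exact a3 b3
  have dAC : Disjoint A C := by
    rw [Finset.disjoint_left]
    intro i hi hi'
    rcases (mA i).1 hi with ⟨a1, a2, a3⟩ | ⟨a1, a2, a3⟩
    · exact a2 ((mC i).1 hi').2
    · exact ((mC i).1 hi').1 a1
  have dBC : Disjoint B C := by
    rw [Finset.disjoint_left]
    intro i hi hi'
    rcases (mB i).1 hi with ⟨a1, a2, a3⟩ | ⟨a1, a2, a3⟩
    · exact a2 ((mC i).1 hi').2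
    · exact ((mC i).1 hi').1 a1
  -- the rows after the move
  have hA1 : ∀ i ∈ A, r1' i = r2 i ∧ r2' i = r1 i := by
    intro i hi
    rcases (mA i).1 hi with ⟨a1, a2, a3⟩ | ⟨a1, a2, a3⟩
    · rcases pair_vertex h a1 with h5 | h5
      · exact absurd (h5.1.trans a3) a2
      · exact ⟨a3, h5.1.symm⟩
    · rcases pair_active h a1 a2 with h5 | h5
      · exact absurd h5 a3
      · exact ⟨(h5.2 i (mem_insert_self _ _)).symm, (h5.1 i (mem_insert_self _ _)).symm⟩
  have hB1 : ∀ i ∈ B, r1' i = r1 i ∧ r2' i = r2 i := by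
    intro i hi
    rcases (mB i).1 hi with ⟨a1, a2, a3⟩ | ⟨a1, a2, a3⟩
    · rcases pair_vertex h a1 with h5 | h5
      · exact ⟨h5.1.symm, h5.2.symm⟩
      · exact absurd h5.2.symm a3
    · exact ⟨(a3.1 i (mem_insert_self _ _)).symm, (a3.2 i (mem_insert_self _ _)).symm⟩
  have hC1 : ∀ i ∈ C, r1' i = r1 i ∧ r2' i = r2 i := by
    intro i hi
    obtain ⟨a1, a2⟩ := (mC i).1 hi
    rcases pair_vertex h a1 with h5 | h5
    · exact ⟨h5.1.symm, h5.2.symm⟩
    · exact ⟨by rw [← h5.2, a2], by rw [← h5.1, a2]⟩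
  have hW1 : ∀ i, i ∉ A ∪ B ∪ C → G.IsSink i ∧ r1 i = G.o i ∧ r2 i = G.o i := by
    intro i hi
    rw [mem_union, mem_union, mA, mB, mC] at hi
    push Not at hi
    obtain ⟨⟨a1, a2⟩, a3⟩ := hi
    have hs : G.IsSink i := by
      by_contra hs
      have := a3 hs
      have h6 := a1.1 hs this
      exact h6 (a2.1 hs this)
    refine ⟨hs, ?_⟩
    by_contra hne
    have hne' : r1 i ≠ G.o i ∨ r2 i ≠ G.o i := by
      by_contra h6
      push Not at h6
      exact hne h6
    obtain ⟨h7, h8⟩ := a1.2 hs hne'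
    exact a2.2 hs hne' h7 h8
  have hR1 : r1' = G.mix A r2 r1 := by
    funext i
    unfold mix
    by_cases hiA : i ∈ A
    · rw [if_pos hiA]; exact (hA1 i hiA).1
    · rw [if_neg hiA]
      by_cases hiB : i ∈ B
      · exact (hB1 i hiB).1
      · by_cases hiC : i ∈ C
        · exact (hC1 i hiC).1
        · obtain ⟨h5, h6, h7⟩ := hW1 i (by
            rw [mem_union, mem_union]
            push Not
            exact ⟨⟨hiA, hiB⟩, hiC⟩)
          rw [(pair_inactive h h5 h6 h7).1, h6]
  have hR2 : r2' = G.mix A r1 r2 := by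
    funext i
    unfold mix
    by_cases hiA : i ∈ A
    · rw [if_pos hiA]; exact (hA1 i hiA).2
    · rw [if_neg hiA]
      by_cases hiB : i ∈ B
      · exact (hB1 i hiB).2
      · by_cases hiC : i ∈ C
        · exact (hC1 i hiC).2
        · obtain ⟨h5, h6, h7⟩ := hW1 i (by
            rw [mem_union, mem_union]
            push Not
            exact ⟨⟨hiA, hiB⟩, hiC⟩)
          rw [(pair_inactive h h5 h6 h7).2, h7]
  by_cases hAe : A.Nonempty
  · by_cases hBe : B.Nonempty
    · rw [hR1, hR2]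
      refine G.yv_mix_mem hAe hBe dAB dAC dBC ?_ hW1 fun i hi => (mC i).1 hi
      refine G.dsep_of hperf dAB (fun i hi => ((mC i).1 hi).1) ?_ ?_
      · intro i hi
        by_cases h5 : r1 i = r2 i
        · exact Or.inr (Or.inr ((mC i).2 ⟨hi, h5⟩))
        · by_cases h6 : r1' i = r2 i
          · exact Or.inl ((mA i).2 (Or.inl ⟨hi, h5, h6⟩))
          · exact Or.inr (Or.inl ((mB i).2 (Or.inl ⟨hi, h5, h6⟩)))
      · intro i hi j hj hadj
        rcases (mA i).1 hi with ⟨a1, a2, a3⟩ | ⟨a1, a2, a3⟩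
        · rcases (mB j).1 hj with ⟨b1, b2, b3⟩ | ⟨b1, b2, b3⟩
          · have hij : i ≠ j := hadj.ne
            have h7 := pair_clique h (Q := {i, j}) (by
                intro x hx
                rw [mem_insert, mem_singleton] at hx
                rcases hx with rfl | rfl
                · exact a1
                · exact b1) (by
                intro x hx y hy hxy
                rw [mem_insert, mem_singleton] at hx hy
                rcases hx with rfl | rfl
                · rcases hy with rfl | rfl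
                  · exact absurd rfl hxy
                  · exact hadj
                · rcases hy with rfl | rfl
                  · exact hadj.symm
                  · exact absurd rfl hxy)
            rcases h7 with ⟨h8, -⟩ | ⟨-, h8⟩
            · exact a2 ((h8 i (by simp)).trans a3)
            · exact b3 (h8 j (by simp)).symm
          · -- `j` is a sink in `B`
            have hij : G.edge i j := hadj.resolve_right (b1 i)
            have h7 := b3.1 i (mem_insert_of_mem (G.mem_Pa.2 hij))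
            exact a2 (h7.trans a3)
        · -- `i` is a sink in `A`
          have hji : G.edge j i := hadj.resolve_left (a1 j)
          rcases (mB j).1 hj with ⟨b1, b2, b3⟩ | ⟨b1, b2, b3⟩
          · rcases pair_active h a1 a2 with h5 | h5
            · exact a3 h5
            · exact b3 (h5.2 j (mem_insert_of_mem (G.mem_Pa.2 hji))).symm
          · exact b1 i hji
    · rw [Finset.not_nonempty_iff_eq_empty] at hBe
      have h5 : r1' = r2 := by
        rw [hR1]
        funext i
        unfold mix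
        split_ifs with hiA
        · rfl
        · by_cases hiC : i ∈ C
          · exact ((mC i).1 hiC).2
          · obtain ⟨-, h6, h7⟩ := hW1 i (by
              rw [hBe, mem_union, mem_union]
              push Not
              exact ⟨⟨hiA, notMem_empty _⟩, hiC⟩)
            rw [h6, h7]
      have h6 : r2' = r1 := by
        rw [hR2]
        funext i
        unfold mix
        split_ifs with hiA
        · rfl
        · by_cases hiC : i ∈ C
          · exact ((mC i).1 hiC).2.symm
          · obtain ⟨-, h6, h7⟩ := hW1 i (by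
              rw [hBe, mem_union, mem_union]
              push Not
              exact ⟨⟨hiA, notMem_empty _⟩, hiC⟩)
            rw [h6, h7]
      rw [h5, h6, mul_comm, sub_self]
      exact zero_mem _
  · rw [Finset.not_nonempty_iff_eq_empty] at hAe
    have h5 : r1' = r1 := by
      rw [hR1, hAe]
      funext i
      unfold mix
      rw [if_neg (notMem_empty _)]
    have h6 : r2' = r2 := by
      rw [hR2, hAe]
      funext i
      unfold mix
      rw [if_neg (notMem_empty _)]
    rw [h5, h6, sub_self]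
    exact zero_mem _

end BNet

end Q49.BN
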