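import Pool.Agent.Q49.BN.Walk
import Pool.Agent.Q49.BN.Main

/-!
# The global Markov ideal is contained in `P_G`
-/

set_option autoImplicit false
set_option linter.unusedSectionVars false

namespace Q49.BN

open Finset MvPolynomial

namespace BNet

variable {n : ℕ} (G : BNet n)

open Classical in
/-- the sum over all `w` which agree with `u` outside `F` -/
noncomputable def SF {R : Type} [AddCommMonoid R] (F : Finset (Fin n)) (f : G.Outcome → R)
    (u : G.Outcome) : R :=
  ∑ w : G.Outcome with (∀ i, i ∉ F → w i = u i), f w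

theorem SF_insert {R : Type} [AddCommMonoid R] {F : Finset (Fin n)} {a : Fin n} (ha : a ∉ F)
    (f : G.Outcome → R) (u : G.Outcome) :
    G.SF (insert a F) f u = G.SF F (fun w => ∑ c, f (Function.update w a c)) u := by
  classical
  unfold SF
  rw [← Finset.sum_product', eq_comm]
  refine Finset.sum_bij' (fun x _ => Function.update x.1 a x.2)
    (fun w _ => (Function.update w a (u a), w a)) ?_ ?_ ?_ ?_ ?_
  · rintro ⟨w, c⟩ hw
    rw [mem_product, mem_filter] at hw
    rw [mem_filter]
    refine ⟨mem_univ _, fun i hi => ?_⟩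
    have hia : i ≠ a := fun h => hi (h ▸ mem_insert_self _ _)
    rw [Function.update_of_ne hia]
    exact hw.1.2 i fun h => hi (mem_insert_of_mem h)
  · intro w hw
    rw [mem_filter] at hw
    rw [mem_product, mem_filter]
    refine ⟨⟨mem_univ _, fun i hi => ?_⟩, mem_univ _⟩
    dsimp only
    by_cases hia : i = a
    · subst hia
      rw [Function.update_self]
    · rw [Function.update_of_ne hia]
      exact hw.2 i fun h => (mem_insert.1 h).elim hia hi
  · rintro ⟨w, c⟩ hw
    rw [mem_product, mem_filter] at hw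
    have h1 : Function.update (Function.update w a c) a (u a) = w := by
      rw [Function.update_idem, ← hw.1.2 a ha, Function.update_eq_self]
    rw [h1, Function.update_self]
  · intro w hw
    rw [Function.update_idem, Function.update_eq_self]
  · rintro ⟨w, c⟩ hw
    rfl

/-- the image of the conditional probability in the quotient -/
noncomputable def tq (j : Fin n) (w : G.Outcome) : G.ParamRing ⧸ G.J :=
  Ideal.Quotient.mk G.J (G.θ j (w j) fun i => w i)

theorem tq_congr {j : Fin n} {w w' : G.Outcome} (h : Agree (insert j (G.model.Pa j)) w w') :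
    G.tq j w = G.tq j w' := by
  unfold tq θ
  have h1 : (⟨j, w j, fun i => w i⟩ : G.Param) = ⟨j, w' j, fun i => w' i⟩ :=
    (G.ix_eq_iff j w w').2 h
  rw [h1]

theorem tq_sum (j : Fin n) (w : G.Outcome) :
    ∑ c, G.tq j (Function.update w j c) = Ideal.Quotient.mk G.J G.z := by
  have h1 : ∀ c, G.tq j (Function.update w j c) =
      Ideal.Quotient.mk G.J (G.θ j c fun i => w i) := by
    intro c
    unfold tq θ
    have h2 : (⟨j, Function.update w j c j, fun i => Function.update w j c i⟩ : G.Param) =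
        ⟨j, c, fun i => w i⟩ := by
      rw [Function.update_self]
      congr 2
      funext i
      refine Function.update_of_ne (fun h => ?_) _ _
      have h3 : Relation.TransGen G.edge i.1 j := Relation.TransGen.single i.2
      rw [h] at h3
      exact G.acyclic j h3
    rw [h2]
  rw [Finset.sum_congr rfl fun c _ => h1 c, ← map_sum, ← sub_eq_zero, ← map_sub,
    Ideal.Quotient.eq_zero_iff_mem]
  exact Ideal.subset_span ⟨j, fun i => w i, rfl⟩

theorem φ_X (w : G.Outcome) : G.φ (X w) = ∏ j, G.tq j w := by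
  unfold φ tq
  rw [aeval_X, map_prod]

/-- Removing the vertices outside an ancestral set. -/
theorem SF_remove (An W : Finset (Fin n)) (hW : W ⊆ An)
    (hAn : ∀ i j, G.edge i j → j ∈ An → i ∈ An) : ∀ (N : ℕ) (D : Finset (Fin n)), An ⊆ D →
    (∀ i j, G.edge i j → j ∈ D → i ∈ D) → (D \ An).card = N → ∀ u,
    G.SF (D \ W) (fun w => ∏ j ∈ D, G.tq j w) u =
      (Ideal.Quotient.mk G.J G.z) ^ N * G.SF (An \ W) (fun w => ∏ j ∈ An, G.tq j w) u := by
  classical
  intro N
  induction N with
  | zero =>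
    intro D hD _ hN u
    have : D = An := by
      rw [card_eq_zero, sdiff_eq_empty_iff_subset] at hN
      exact hN.antisymm hD
    rw [this, pow_zero, one_mul]
  | succ N ih =>
    intro D hD hanc hN u
    obtain ⟨w0, hw0, hmax⟩ := Finset.exists_max_image (D \ An) G.rk (card_pos.1 (by omega))
    rw [mem_sdiff] at hw0
    have hnochild : ∀ j ∈ D, ¬ G.edge w0 j := by
      intro j hj hed
      by_cases hjA : j ∈ An
      · exact hw0.2 (hAn w0 j hed hjA)
      · have := G.rk_lt hed
        have := hmax j (mem_sdiff.2 ⟨hj, hjA⟩)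
        omega
    have hw0W : w0 ∉ W := fun h => hw0.2 (hW h)
    have h1 : D \ W = insert w0 (D.erase w0 \ W) := by
      ext i
      rw [mem_insert, mem_sdiff, mem_sdiff, mem_erase]
      constructor
      · rintro ⟨h1, h2⟩
        by_cases hi : i = w0
        · exact Or.inl hi
        · exact Or.inr ⟨⟨hi, h1⟩, h2⟩
      · rintro (rfl | h)
        · exact ⟨hw0.1, hw0W⟩
        · exact ⟨h.1.2, h.2⟩
    rw [h1, SF_insert G (fun h => (mem_erase.1 (mem_sdiff.1 h).1).1 rfl)]
    have h2 : (fun w : G.Outcome => ∑ c, ∏ j ∈ D, G.tq j (Function.update w w0 c)) =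
        fun w => (Ideal.Quotient.mk G.J G.z) * ∏ j ∈ D.erase w0, G.tq j w := by
      funext w
      have h3 : ∀ c, ∏ j ∈ D, G.tq j (Function.update w w0 c) =
          G.tq w0 (Function.update w w0 c) * ∏ j ∈ D.erase w0, G.tq j w := by
        intro c
        rw [← Finset.mul_prod_erase D _ hw0.1]
        congr 1
        refine Finset.prod_congr rfl fun j hj => G.tq_congr fun i hi => ?_
        rw [mem_erase] at hj
        refine Function.update_of_ne (fun hiw => ?_) _ _
        rcases mem_insert.1 hi with rfl | hi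
        · exact hj.1 hiw
        · rw [hiw] at hi
          exact hnochild j hj.2 (G.mem_Pa.1 hi)
      rw [Finset.sum_congr rfl fun c _ => h3 c, ← Finset.sum_mul, G.tq_sum]
    rw [h2]
    have h4 : G.SF (D.erase w0 \ W) (fun w => (Ideal.Quotient.mk G.J G.z) *
        ∏ j ∈ D.erase w0, G.tq j w) u = (Ideal.Quotient.mk G.J G.z) *
        G.SF (D.erase w0 \ W) (fun w => ∏ j ∈ D.erase w0, G.tq j w) u := by
      unfold SF
      rw [Finset.mul_sum]
    rw [h4, ih (D.erase w0) ?_ ?_ ?_ u, pow_succ]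
    · ring
    · intro i hi
      exact mem_erase.2 ⟨fun h => hw0.2 (h ▸ hi), hD hi⟩
    · intro i j hed hj
      rw [mem_erase] at hj ⊢
      refine ⟨fun h => ?_, hanc i j hed hj.2⟩
      rw [h] at hed
      exact hnochild j hj.2 hed
    · rw [erase_sdiff_comm, card_erase_of_mem (mem_sdiff.2 hw0), hN]
      rfl

theorem φ_marg (An W : Finset (Fin n)) (hW : W ⊆ An)
    (hAn : ∀ i j, G.edge i j → j ∈ An → i ∈ An) : ∃ N : ℕ, ∀ u, G.φ (G.marg W u) =
      (Ideal.Quotient.mk G.J G.z) ^ N * G.SF (An \ W) (fun w => ∏ j ∈ An, G.tq j w) u := by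
  classical
  refine ⟨(univ \ An).card, fun u => ?_⟩
  rw [← G.SF_remove An W hW hAn _ univ (subset_univ _) (fun _ _ _ _ => mem_univ _) rfl u]
  unfold marg SF
  rw [map_sum]
  have h1 : (univ.filter fun w : G.Outcome => ∀ i ∈ W, w i = u i) =
      univ.filter fun w : G.Outcome => ∀ i, i ∉ univ \ W → w i = u i := by
    refine Finset.filter_congr fun w _ => ?_
    constructor
    · intro h i hi
      exact h i (by simpa using hi)
    · intro h i hi
      exact h i (by simpa using hi)
  rw [h1]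
  exact Finset.sum_congr rfl fun w _ => G.φ_X w

/-- the swap -/
theorem swap_eq {A B C : Finset (Fin n)} (_hAB : Disjoint A B) (hAC : Disjoint A C)
    (hsep : G.DSep A B C) (An : Finset (Fin n)) (hAn : ∀ v, v ∈ An ↔ G.AnC (A ∪ B ∪ C) v)
    {u u' : G.Outcome} (huu' : ∀ i ∈ C, u i = u' i) (g : Fin n → G.Outcome → G.ParamRing ⧸ G.J)
    (hg : ∀ j w w', Agree (insert j (G.model.Pa j)) w w' → g j w = g j w') :
    G.SF (An \ (A ∪ B ∪ C)) (fun w => ∏ j ∈ An, g j w) u *
      G.SF (An \ (A ∪ B ∪ C)) (fun w => ∏ j ∈ An, g j w) u' =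
    G.SF (An \ (A ∪ B ∪ C)) (fun w => ∏ j ∈ An, g j w) (G.mix A u' u) *
      G.SF (An \ (A ∪ B ∪ C)) (fun w => ∏ j ∈ An, g j w) (G.mix A u u') := by
  classical
  set A' : Finset (Fin n) := An.filter fun v => v ∉ C ∧ ∃ b, Act G A C b v with hA'
  have hanc : ∀ i j, G.edge i j → j ∈ An → i ∈ An := by
    intro i j hij hj
    obtain ⟨d, hd, hjd⟩ := (hAn j).1 hj
    exact (hAn i).2 ⟨d, hd, (Relation.ReflTransGen.single hij).trans hjd⟩
  have hAA' : A ⊆ A' := by
    intro a ha
    rw [hA', mem_filter]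
    refine ⟨(hAn a).2 ⟨a, ?_, Relation.ReflTransGen.refl⟩, fun h => ?_, false, Act.start a ha⟩
    · exact mem_union_left _ (mem_union_left _ ha)
    · exact Finset.disjoint_left.1 hAC ha h
  have hBA' : ∀ b ∈ B, b ∉ A' := by
    intro b hb hbA
    rw [hA', mem_filter] at hbA
    obtain ⟨c, hc⟩ := hbA.2.2
    exact not_act hsep hc hb
  have hCA' : ∀ c ∈ C, c ∉ A' := by
    intro c hc hcA
    rw [hA', mem_filter] at hcA
    exact hcA.2.1 hc
  -- families
  have hfam : ∀ j ∈ An, (∀ i ∈ insert j (G.model.Pa j), i ∉ A') ∨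
      (∀ i ∈ insert j (G.model.Pa j), i ∈ C ∨ i ∈ A') := by
    intro j hj
    by_cases h : ∃ x ∈ insert j (G.model.Pa j), x ∈ A'
    · right
      obtain ⟨x, hx, hxA⟩ := h
      rw [hA', mem_filter] at hxA
      intro y hy
      by_cases hyC : y ∈ C
      · exact Or.inl hyC
      · refine Or.inr ?_
        rw [hA', mem_filter]
        refine ⟨?_, hyC, act_closed hsep ((hAn j).1 hj) hx hy hxA.2.1 hyC hxA.2.2⟩
        rcases mem_insert.1 hy with rfl | hy
        · exact hj
        · exact hanc _ _ (G.mem_Pa.1 hy) hj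
    · left
      exact fun i hi hiA => h ⟨i, hi, hiA⟩
  have hterm : ∀ w w' : G.Outcome, (∀ i ∈ C, w i = w' i) → ∀ j ∈ An,
      g j (G.mix A' w' w) * g j (G.mix A' w w') = g j w * g j w' := by
    intro w w' hww j hj
    rcases hfam j hj with h | h
    · rw [hg j (G.mix A' w' w) w fun i hi => by unfold mix; rw [if_neg (h i hi)],
        hg j (G.mix A' w w') w' fun i hi => by unfold mix; rw [if_neg (h i hi)]]
    · rw [hg j (G.mix A' w' w) w' fun i hi => ?_, hg j (G.mix A' w w') w fun i hi => ?_, mul_comm]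
      · unfold mix
        rcases h i hi with h1 | h1
        · rw [if_neg (hCA' i h1)]; exact (hww i h1).symm
        · rw [if_pos h1]
      · unfold mix
        rcases h i hi with h1 | h1
        · rw [if_neg (hCA' i h1)]; exact hww i h1
        · rw [if_pos h1]
  unfold SF
  rw [Finset.sum_mul_sum, Finset.sum_mul_sum, ← Finset.sum_product', ← Finset.sum_product']
  have hmm : ∀ w w' : G.Outcome, G.mix A' (G.mix A' w w') (G.mix A' w' w) = w := by
    intro w w'
    funext i
    unfold mix
    split_ifs <;> rfl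
  -- membership
  have hmem : ∀ v v' w w' : G.Outcome, (∀ i, i ∉ An \ (A ∪ B ∪ C) → w i = v i) →
      (∀ i, i ∉ An \ (A ∪ B ∪ C) → w' i = v' i) →
      ∀ i, i ∉ An \ (A ∪ B ∪ C) → G.mix A' w' w i = G.mix A v' v i := by
    intro v v' w w' hw hw' i hi
    unfold mix
    by_cases hiA : i ∈ A
    · rw [if_pos hiA, if_pos (hAA' hiA)]
      exact hw' i hi
    · rw [if_neg hiA]
      have h1 : i ∉ A' := by
        intro hiA'
        apply hi
        rw [mem_sdiff, mem_union, mem_union]
        refine ⟨(mem_filter.1 hiA').1, ?_⟩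
        rintro ((h2 | h2) | h2)
        · exact hiA h2
        · exact hBA' i h2 hiA'
        · exact hCA' i h2 hiA'
      rw [if_neg h1]
      exact hw i hi
  have hmixmix : ∀ v v' : G.Outcome, G.mix A (G.mix A v v') (G.mix A v' v) = v := by
    intro w w'
    funext i
    unfold mix
    split_ifs <;> rfl
  have hC' : ∀ i ∈ C, i ∉ An \ (A ∪ B ∪ C) := fun i hi h =>
    (mem_sdiff.1 h).2 (mem_union_right _ hi)
  refine Finset.sum_bij' (fun x _ => (G.mix A' x.2 x.1, G.mix A' x.1 x.2))
    (fun x _ => (G.mix A' x.2 x.1, G.mix A' x.1 x.2)) ?_ ?_ ?_ ?_ ?_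
  · rintro ⟨w, w'⟩ hw
    rw [mem_product, mem_filter, mem_filter] at hw ⊢
    exact ⟨⟨mem_univ _, hmem u u' w w' hw.1.2 hw.2.2⟩,
      ⟨mem_univ _, hmem u' u w' w hw.2.2 hw.1.2⟩⟩
  · rintro ⟨w, w'⟩ hw
    rw [mem_product, mem_filter, mem_filter] at hw ⊢
    have h1 := hmem _ _ w w' hw.1.2 hw.2.2
    have h2 := hmem _ _ w' w hw.2.2 hw.1.2
    rw [hmixmix] at h1 h2
    exact ⟨⟨mem_univ _, h1⟩, ⟨mem_univ _, h2⟩⟩
  · rintro ⟨w, w'⟩ _
    exact Prod.ext (hmm w w') (hmm w' w)
  · rintro ⟨w, w'⟩ _
    exact Prod.ext (hmm w w') (hmm w' w)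
  · rintro ⟨w, w'⟩ hw
    rw [mem_product, mem_filter, mem_filter] at hw
    have hww : ∀ i ∈ C, w i = w' i := by
      intro i hi
      exact (hw.1.2 i (hC' i hi)).trans ((huu' i hi).trans (hw.2.2 i (hC' i hi)).symm)
    rw [← Finset.prod_mul_distrib, ← Finset.prod_mul_distrib]
    exact (Finset.prod_congr rfl fun j hj => hterm w w' hww j hj).symm

/-- The global Markov ideal is contained in `P_G`. -/
theorem globalIdeal_le : G.globalIdeal ≤ G.P := by
  classical
  unfold globalIdeal
  rw [Ideal.span_le]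
  rintro f ⟨A, B, C, -, -, hAB, hAC, hBC, hsep, u, u', huu', rfl⟩
  set An : Finset (Fin n) := univ.filter fun v => G.AnC (A ∪ B ∪ C) v with hAndef
  have hAn : ∀ v, v ∈ An ↔ G.AnC (A ∪ B ∪ C) v := fun v => by rw [hAndef, mem_filter]; simp
  obtain ⟨N, hN⟩ := G.φ_marg An (A ∪ B ∪ C)
    (fun i hi => (hAn i).2 ⟨i, hi, Relation.ReflTransGen.refl⟩) (by
      intro i j hij hj
      obtain ⟨d, hd, hjd⟩ := (hAn j).1 hj
      exact (hAn i).2 ⟨d, hd, (Relation.ReflTransGen.single hij).trans hjd⟩)
  show G.φ _ = 0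
  unfold minor
  rw [map_sub, map_mul, map_mul, hN, hN, hN, hN]
  have h := G.swap_eq hAB hAC hsep An hAn huu' G.tq fun j w w' h => G.tq_congr h
  linear_combination (Ideal.Quotient.mk G.J G.z) ^ N * (Ideal.Quotient.mk G.J G.z) ^ N * h

end BNet

end Q49.BN
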