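import Pool.Agent.Q49.BN.Norm

/-!
# Active walks and active paths
-/

set_option autoImplicit false
set_option linter.unusedSectionVars false

namespace Q49.BN

open Finset Relation

namespace BNet

variable {n : ℕ} (G : BNet n)

/-- `v` is an ancestor of an element of `C` (or in `C`) -/
def AnC (C : Finset (Fin n)) (v : Fin n) : Prop := ∃ d ∈ C, ReflTransGen G.edge v d

/-- an active walk with `m` steps -/
def Active (C : Finset (Fin n)) (m : ℕ) (v : ℕ → Fin n) : Prop :=
  (∀ l, l < m → G.skel.Adj (v l) (v (l + 1))) ∧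
  ∀ l, 0 < l → l < m →
    ((G.edge (v (l - 1)) (v l) ∧ G.edge (v (l + 1)) (v l)) → G.AnC C (v l)) ∧
    (¬ (G.edge (v (l - 1)) (v l) ∧ G.edge (v (l + 1)) (v l)) → v l ∉ C)

variable {G}

/-- a directed run starting at a repeated vertex meets a collider -/
theorem run {C : Finset (Fin n)} {m : ℕ} {v : ℕ → Fin n} (h : G.Active C m v) {i j : ℕ}
    (hij : i < j) (hjm : j ≤ m) (heq : v i = v j) (hf : G.edge (v i) (v (i + 1))) :
    G.AnC C (v i) := by
  by_contra hcon
  have key : ∀ k, i + 1 + k ≤ j → TransGen G.edge (v i) (v (i + 1 + k)) ∧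
      G.edge (v (i + k)) (v (i + 1 + k)) := by
    intro k
    induction k with
    | zero => intro _; exact ⟨TransGen.single hf, hf⟩
    | succ k ih =>
      intro hk
      obtain ⟨h1, h2⟩ := ih (by omega)
      have hadj := h.1 (i + 1 + k) (by omega)
      rcases hadj with h3 | h3
      · refine ⟨?_, ?_⟩
        · rw [show i + 1 + (k + 1) = i + 1 + k + 1 by omega]
          exact h1.tail h3
        · rw [show i + 1 + (k + 1) = i + 1 + k + 1 by omega,
            show i + (k + 1) = i + 1 + k by omega]
          exact h3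
      · exfalso
        obtain ⟨d, hd, hvd⟩ := (h.2 (i + 1 + k) (by omega) (by omega)).1 ⟨by
          rw [show i + 1 + k - 1 = i + k by omega]; exact h2, h3⟩
        exact hcon ⟨d, hd, h1.to_reflTransGen.trans hvd⟩
  obtain ⟨h1, -⟩ := key (j - i - 1) (by omega)
  rw [show i + 1 + (j - i - 1) = j by omega, ← heq] at h1
  exact G.acyclic _ h1

/-- cutting a loop out of an active walk -/
theorem cut {C : Finset (Fin n)} {m : ℕ} {v : ℕ → Fin n} (h : G.Active C m v) {i j : ℕ}
    (hij : i < j) (hjm : j ≤ m) (heq : v i = v j) :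
    G.Active C (m - (j - i)) (fun l => if l ≤ i then v l else v (l + (j - i))) := by
  set v' : ℕ → Fin n := fun l => if l ≤ i then v l else v (l + (j - i)) with hv'
  have e1 : ∀ l, l ≤ i → v' l = v l := fun l hl => by rw [hv']; beta_reduce; rw [if_pos hl]
  have e2 : ∀ l, i ≤ l → v' l = v (l + (j - i)) := by
    intro l hl
    rw [hv']
    beta_reduce
    split_ifs with h1
    · have : l = i := by omega
      subst this
      rw [show l + (j - l) = j by omega]
      exact heq
    · rfl
  refine ⟨fun l hl => ?_, fun l hl0 hl => ?_⟩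
  · rcases Nat.lt_or_ge l i with h1 | h1
    · rw [e1 l h1.le, e1 (l + 1) h1]
      exact h.1 l (by omega)
    · rw [e2 l h1, e2 (l + 1) (by omega), show l + 1 + (j - i) = l + (j - i) + 1 by omega]
      exact h.1 _ (by omega)
  · rcases Nat.lt_trichotomy l i with h1 | h1 | h1
    · rw [e1 (l - 1) (by omega), e1 l h1.le, e1 (l + 1) h1]
      exact h.2 l hl0 (by omega)
    · subst h1
      rw [e1 (l - 1) (by omega), e1 l le_rfl, e2 (l + 1) (by omega),
        show l + 1 + (j - l) = j + 1 by omega]
      have hi := h.2 l hl0 (by omega)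
      have hj := h.2 j (by omega) (by omega)
      refine ⟨fun hc => ?_, fun hc => ?_⟩
      · rcases h.1 l (by omega) with h2 | h2
        · exact run h hij hjm heq h2
        · exact hi.1 ⟨hc.1, h2⟩
      · by_cases h2 : G.edge (v (l - 1)) (v l)
        · have h3 : ¬ G.edge (v (j + 1)) (v j) := by
            rw [← heq]
            exact fun h4 => hc ⟨h2, h4⟩
          rw [heq]
          exact hj.2 fun h4 => h3 h4.2
        · exact hi.2 fun h4 => h2 h4.1
    · rw [e2 (l - 1) (by omega), e2 l h1.le, e2 (l + 1) (by omega),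
        show l - 1 + (j - i) = l + (j - i) - 1 by omega,
        show l + 1 + (j - i) = l + (j - i) + 1 by omega]
      exact h.2 _ (by omega) (by omega)

/-- a walk from a sequence of vertices -/
theorem exists_walk {H : SimpleGraph (Fin n)} (v : ℕ → Fin n) : ∀ m : ℕ,
    (∀ l, l < m → H.Adj (v l) (v (l + 1))) →
    ∃ p : H.Walk (v 0) (v m), p.length = m ∧ ∀ l, l ≤ m → p.getVert l = v l := by
  intro m
  induction m with
  | zero =>
    intro _
    exact ⟨SimpleGraph.Walk.nil, rfl, fun l hl => by
      rw [show l = 0 by omega]; rfl⟩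
  | succ m ih =>
    intro h
    obtain ⟨p, hp1, hp2⟩ := ih fun l hl => h l (by omega)
    refine ⟨p.concat (h m (by omega)), by rw [SimpleGraph.Walk.length_concat, hp1], fun l hl => ?_⟩
    rcases Nat.lt_or_ge l (m + 1) with h1 | h1
    · rw [SimpleGraph.Walk.concat_eq_append, SimpleGraph.Walk.getVert_append]
      split_ifs with h2
      · exact hp2 l (by omega)
      · have : l = m := by omega
        subst this
        rw [hp1, Nat.sub_self]
        rfl
    · have h2 : l = m + 1 := by omega
      rw [h2]
      have h3 := (p.concat (h m (by omega))).getVert_length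
      have h4 : (p.concat (h m (by omega))).length = m + 1 := by
        rw [SimpleGraph.Walk.length_concat, hp1]
      rwa [h4] at h3

/-- d-separation excludes active walks -/
theorem not_active {A B C : Finset (Fin n)} (hsep : G.DSep A B C) (m : ℕ) (v : ℕ → Fin n)
    (h0 : v 0 ∈ A) (hm : v m ∈ B) (h : G.Active C m v) : False := by
  induction m using Nat.strong_induction_on generalizing v with
  | _ m ih =>
    by_cases hinj : ∃ i j, i < j ∧ j ≤ m ∧ v i = v j
    · obtain ⟨i, j, hij, hjm, heq⟩ := hinj
      refine ih (m - (j - i)) (by omega) _ ?_ ?_ (cut h hij hjm heq)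
      · rw [if_pos (Nat.zero_le _)]; exact h0
      · split_ifs with h1
        · have h2 : j = m := by omega
          have h3 : m - (j - i) = i := by omega
          rw [h3, heq, h2]
          exact hm
        · rw [show m - (j - i) + (j - i) = m by omega]
          exact hm
    · obtain ⟨p, hp1, hp2⟩ := exists_walk v m h.1
      have hpath : p.IsPath := by
        rw [SimpleGraph.Walk.isPath_def, List.nodup_iff_injective_getElem]
        intro x y hxy
        have hlen : p.support.length = m + 1 := by rw [SimpleGraph.Walk.length_support, hp1]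
        have hx : x.val < m + 1 := lt_of_lt_of_eq x.2 hlen
        have hy : y.val < m + 1 := lt_of_lt_of_eq y.2 hlen
        simp only [SimpleGraph.Walk.support_getElem_eq_getVert] at hxy
        rw [hp2 _ (by omega), hp2 _ (by omega)] at hxy
        apply Fin.ext
        by_contra hne
        rcases Nat.lt_or_gt_of_ne hne with h1 | h1
        · exact hinj ⟨x, y, h1, by omega, hxy⟩
        · exact hinj ⟨y, x, h1, by omega, hxy.symm⟩
      obtain ⟨k, hk0, hk, hkk⟩ := hsep _ h0 _ hm p hpath
      rw [hp1] at hk
      have h1 := h.2 k hk0 hk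
      unfold IsCollider at hkk
      rw [hp2 k hk.le, hp2 (k - 1) (by omega), hp2 (k + 1) (by omega)] at hkk
      rcases hkk with ⟨h2, h3⟩ | ⟨h2, h3⟩
      · exact h1.2 h3 h2
      · obtain ⟨d, hd, hvd⟩ := h1.1 h2
        exact h3 d hvd hd

/-! ### reachability -/

/-- Vertices reachable from `A` by active walks; the boolean says whether the last edge points into
the vertex. -/
inductive Act (G : BNet n) (A C : Finset (Fin n)) : Bool → Fin n → Prop
  | start (a : Fin n) (ha : a ∈ A) : Act G A C false a
  | down (b : Bool) (v w : Fin n) (h : Act G A C b v) (hv : v ∉ C) (hvw : G.edge v w) :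
      Act G A C true w
  | up0 (v w : Fin n) (h : Act G A C false v) (hv : v ∉ C) (hwv : G.edge w v) : Act G A C false w
  | up1 (v w : Fin n) (h : Act G A C true v) (hv : G.AnC C v) (hwv : G.edge w v) :
      Act G A C false w

/-- adding a vertex to an active walk -/
theorem extend {C : Finset (Fin n)} {m : ℕ} {f : ℕ → Fin n} (h : G.Active C m f) (w : Fin n)
    (hadj : G.skel.Adj (f m) w)
    (hmid : 0 < m → ((G.edge (f (m - 1)) (f m) ∧ G.edge w (f m)) → G.AnC C (f m)) ∧
      (¬ (G.edge (f (m - 1)) (f m) ∧ G.edge w (f m)) → f m ∉ C)) :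
    G.Active C (m + 1) (fun l => if l ≤ m then f l else w) := by
  have e1 : ∀ l, l ≤ m → (if l ≤ m then f l else w) = f l := fun l hl => if_pos hl
  have e2 : (if m + 1 ≤ m then f (m + 1) else w) = w := if_neg (by omega)
  refine ⟨fun l hl => ?_, fun l hl0 hl => ?_⟩
  · beta_reduce
    rcases Nat.lt_or_ge l m with h1 | h1
    · rw [e1 l h1.le, e1 (l + 1) h1]
      exact h.1 l h1
    · have : l = m := by omega
      subst this
      rw [e1 l le_rfl, e2]
      exact hadj
  · beta_reduce
    rcases Nat.lt_or_ge l m with h1 | h1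
    · rw [e1 l h1.le, e1 (l + 1) h1, e1 (l - 1) (by omega)]
      exact h.2 l hl0 h1
    · have : l = m := by omega
      subst this
      rw [e1 l le_rfl, e1 (l - 1) (by omega), e2]
      exact hmid hl0

theorem Act.exists_walk {A C : Finset (Fin n)} {b : Bool} {v : Fin n}
    (h : Act G A C b v) : ∃ (m : ℕ) (f : ℕ → Fin n), f 0 ∈ A ∧ f m = v ∧ G.Active C m f ∧
      (b = true → 0 < m ∧ G.edge (f (m - 1)) (f m)) ∧
      (b = false → 0 < m → G.edge (f m) (f (m - 1))) := by
  induction h with
  | start a ha =>
    exact ⟨0, fun _ => a, ha, rfl, ⟨fun l hl => absurd hl (by omega),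
      fun l _ hl => absurd hl (by omega)⟩, fun h => absurd h (by simp),
      fun _ h => absurd h (by omega)⟩
  | down b v w _ hv hvw ih =>
    obtain ⟨m, f, h0, rfl, hact, hb1, hb2⟩ := ih
    refine ⟨m + 1, fun l => if l ≤ m then f l else w, ?_, ?_, extend hact w (Or.inl hvw) ?_, ?_, ?_⟩
    · beta_reduce; rw [if_pos (Nat.zero_le _)]; exact h0
    · beta_reduce; rw [if_neg (by omega)]
    · intro _
      exact ⟨fun h => absurd h.2 (G.not_edge_of_edge hvw), fun _ => hv⟩
    · intro _
      refine ⟨by omega, ?_⟩
      beta_reduce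
      rw [Nat.add_sub_cancel, if_pos le_rfl, if_neg (by omega)]
      exact hvw
    · intro h; exact absurd h (by simp)
  | up0 v w _ hv hwv ih =>
    obtain ⟨m, f, h0, rfl, hact, hb1, hb2⟩ := ih
    refine ⟨m + 1, fun l => if l ≤ m then f l else w, ?_, ?_, extend hact w (Or.inr hwv) ?_, ?_, ?_⟩
    · beta_reduce; rw [if_pos (Nat.zero_le _)]; exact h0
    · beta_reduce; rw [if_neg (by omega)]
    · intro hm
      exact ⟨fun h => absurd h.1 (G.not_edge_of_edge (hb2 rfl hm)), fun _ => hv⟩
    · intro h; exact absurd h (by simp)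
    · intro _ _
      beta_reduce
      rw [Nat.add_sub_cancel, if_neg (by omega), if_pos le_rfl]
      exact hwv
  | up1 v w _ hv hwv ih =>
    obtain ⟨m, f, h0, rfl, hact, hb1, hb2⟩ := ih
    refine ⟨m + 1, fun l => if l ≤ m then f l else w, ?_, ?_, extend hact w (Or.inr hwv) ?_, ?_, ?_⟩
    · beta_reduce; rw [if_pos (Nat.zero_le _)]; exact h0
    · beta_reduce; rw [if_neg (by omega)]
    · intro _
      exact ⟨fun _ => hv, fun h => absurd ⟨(hb1 rfl).2, hwv⟩ h⟩
    · intro h; exact absurd h (by simp)
    · intro _ _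
      beta_reduce
      rw [Nat.add_sub_cancel, if_neg (by omega), if_pos le_rfl]
      exact hwv

theorem not_act {A B C : Finset (Fin n)} (hsep : G.DSep A B C) {b : Bool} {v : Fin n}
    (h : Act G A C b v) : v ∉ B := by
  intro hv
  obtain ⟨m, f, h0, h1, h2, -⟩ := h.exists_walk
  exact not_active hsep m f h0 (by rw [h1]; exact hv) h2

/-- following directed paths avoiding `C` -/
theorem Act.desc {A C : Finset (Fin n)} {v d : Fin n} (hvd : ReflTransGen G.edge v d) :
    ¬ G.AnC C v → (∃ b, Act G A C b v) → ∃ b, Act G A C b d := by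
  induction hvd with
  | refl => exact fun _ h => h
  | @tail e d hve hed ih =>
    intro hv h
    obtain ⟨b, hb⟩ := ih hv h
    exact ⟨true, Act.down b e d hb (fun he => hv ⟨e, he, hve⟩) hed⟩

theorem Act.anc {A C : Finset (Fin n)} {v d : Fin n} (hvd : ReflTransGen G.edge v d) :
    ¬ G.AnC C v → Act G A C false d → Act G A C false v := by
  induction hvd with
  | refl => exact fun _ h => h
  | @tail e d hve hed ih =>
    intro hv h
    refine ih hv (Act.up0 d e h (fun hd => hv ⟨d, hd, hve.tail hed⟩) hed)

/-- The set of vertices reachable from `A` is closed under moving inside the families of the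
ancestral set of `A ∪ B ∪ C`. -/
theorem act_closed {A B C : Finset (Fin n)} (hsep : G.DSep A B C) {j x y : Fin n}
    (hj : G.AnC (A ∪ B ∪ C) j) (hx : x ∈ insert j (G.model.Pa j)) (hy : y ∈ insert j (G.model.Pa j))
    (hxC : x ∉ C) (_hyC : y ∉ C) (h : ∃ b, Act G A C b x) : ∃ b, Act G A C b y := by
  -- a vertex of the ancestral set that is not an ancestor of `C`
  have hup : ∀ b, Act G A C b j → j ∉ C → ∀ w, G.edge w j → Act G A C false w := by
    intro b hb hjC w hw
    by_cases hjan : G.AnC C j
    · cases b with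
      | false => exact Act.up0 j w hb hjC hw
      | true => exact Act.up1 j w hb hjan hw
    · obtain ⟨d, hd, hjd⟩ := hj
      rw [mem_union, mem_union] at hd
      rcases hd with (hd | hd) | hd
      · exact Act.up0 j w (Act.anc hjd hjan (Act.start d hd)) hjC hw
      · obtain ⟨b', hb'⟩ := Act.desc hjd hjan ⟨b, hb⟩
        exact absurd hd (not_act hsep hb')
      · exact absurd ⟨d, hd, hjd⟩ hjan
  obtain ⟨b, hb⟩ := h
  rcases mem_insert.1 hx with rfl | hx
  · rcases mem_insert.1 hy with rfl | hy
    · exact ⟨b, hb⟩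
    · exact ⟨false, hup b hb hxC y (G.mem_Pa.1 hy)⟩
  · have hxj := G.mem_Pa.1 hx
    rcases mem_insert.1 hy with rfl | hy
    · exact ⟨true, Act.down b x y hb hxC hxj⟩
    · have hyj := G.mem_Pa.1 hy
      have hj1 : Act G A C true j := Act.down b x j hb hxC hxj
      by_cases hjan : G.AnC C j
      · exact ⟨false, Act.up1 j y hj1 hjan hyj⟩
      · have hjC : j ∉ C := fun h => hjan ⟨j, h, ReflTransGen.refl⟩
        exact ⟨false, hup true hj1 hjC y hyj⟩

end BNet

end Q49.BN
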